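import Pool.Agent.Lib.MP_562b47_mp.LG.Main
import Pool.Agent.Lib.MP_562b47_mp.LH.Geo
import Pool.Agent.Lib.MP_562b47_mp.WO.Basic

/-!
MP_562b47, d = 2, weak Lemma H', module L9: (G) and (F) for the regions of the global part.
-/

open Matrix Finset

namespace Pool.Agent.Lib.MP_562b47_mp.LG

open Pool.Agent.Lib.MP_562b47_mp.AL Pool.Agent.Lib.MP_562b47_mp.WO Pool.Agent.Lib.MP_562b47_mp.LW
  Pool.Agent.Lib.MP_562b47_mp.LH

set_option linter.unusedSectionVars false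

variable {ι 𝔅 : Type*} [Fintype ι] [DecidableEq ι] [Fintype 𝔅] [DecidableEq 𝔅]

/-- quantitative properties of the blocks, by class -/
structure Quant (S : Sys ι 𝔅) (A : Matrix ι ι ℝ) (α : ℝ) (CI NI glo : ℕ → ℝ) : Prop where
  row : ∀ x, ∑ y, |A x y| ≤ α
  one_α : 1 ≤ α
  RS_le : ∀ b V, S.comp b V → ∀ x ∈ S.inn b, ∀ y ∈ S.inn b,
    |RS A (S.inn b) V x y| ≤ CI (S.cls b)
  card_le : ∀ b, ((S.inn b).card : ℝ) + 1 ≤ NI (S.cls b)
  one_CI : ∀ j, 1 ≤ CI j
  one_NI : ∀ j, 1 ≤ NI j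
  glo_pos : ∀ j, 0 < glo j
  glo_le : ∀ j, glo j ≤ 1
  g_ge : ∀ b V, S.comp b V → glo (S.cls b) ≤ S.gg A b V
  win_le : ∀ b, ∀ x ∈ S.inn b, S.hi b x - S.lo b x ≤ 1
  et_small : ∀ b, 8 * α ^ 2 * (CI (S.cls b) * NI (S.cls b)) ^ 3 * S.et (S.cls b) ≤ min S.r 1

/-- neighbourhood of the centre of `b0` -/
structure Nb (S : Sys ι 𝔅) (A : Matrix ι ι ℝ) (b0 : 𝔅) : Prop where
  /-- the neighbours of the centre and their neighbours are in the block -/
  near : ∀ y, y ≠ S.w b0 → A (S.w b0) y ≠ 0 → y ∈ S.Q b0 ∧ ∀ z, A y z ≠ 0 → z ∈ S.Q b0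
  /-- the centre has a neighbour -/
  nbr : ∃ y, y ≠ S.w b0 ∧ 1 ≤ |A y (S.w b0)|
  /-- if the centre is a port site of `b`, it has a neighbour outside `Q b` -/
  port : ∀ b, S.w b0 ∈ S.L b → ∃ y, y ≠ S.w b0 ∧ y ∉ S.Q b ∧ 1 ≤ |A y (S.w b0)|

/-- the data of a region -/
structure RD (S : Sys ι 𝔅) (b0 : 𝔅) (σ σC σA C0 Ac0 : Finset 𝔅) (s : ι) (V : ι → ℝ) :
    Prop where
  s_eq : s = S.w b0
  dj : ∀ b ∈ σ, ∀ b' ∈ σ, b ≠ b' → Disjoint (S.Q b) (S.Q b')
  AC : σA ⊆ σC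
  CS : σC ⊆ σ
  out : ∀ b ∈ C0, Disjoint (S.Q b) (Reg S b0 σ)
  act : Ac0 ⊆ C0
  win : ∀ b ∈ σ, ∀ x ∈ S.inn b, x ≠ s → V x ∈ Set.Icc (S.lo b x) (S.hi b x)
  sA : ∀ b ∈ σA, s ≠ S.w b
  sC : ∀ b ∈ σC, s ∉ S.inn b

/-- constant of one block -/
noncomputable def Gb (α K N g r : ℝ) : ℝ := 75 * α ^ 2 * (K * N) ^ 5 / (g * min r 1)

/-- the frozen blocks -/
def FbR (S : Sys ι 𝔅) (σA : Finset 𝔅) (s : ι) (b : 𝔅) : Finset ι :=
  if b ∈ σA ∨ s = S.w b then S.qi b else S.inn b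

theorem qi_eq (S : Sys ι 𝔅) (b : 𝔅) : S.qi b = insert (S.w b) (S.inn b) := by
  ext x
  rw [S.mem_qi, mem_insert, S.mem_inn]
  constructor
  · rintro ⟨h1, h2⟩
    by_cases h : x = S.w b
    · exact Or.inl h
    · exact Or.inr ⟨h, h1, h2⟩
  · rintro (h | ⟨_, h1, h2⟩)
    · rw [h]; exact ⟨S.w_mem b, S.w_not b⟩
    · exact ⟨h1, h2⟩

theorem w_notMem_inn (S : Sys ι 𝔅) (b : 𝔅) : S.w b ∉ S.inn b := fun h => ((S.mem_inn).mp h).1 rfl

theorem FbR_sub_qi (S : Sys ι 𝔅) (σA : Finset 𝔅) (s : ι) (b : 𝔅) : FbR S σA s b ⊆ S.qi b := by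
  intro x hx
  unfold FbR at hx
  split_ifs at hx
  · exact hx
  · rw [qi_eq]; exact mem_insert_of_mem hx

theorem FbR_sub_Q (S : Sys ι 𝔅) (σA : Finset 𝔅) (s : ι) (b : 𝔅) : FbR S σA s b ⊆ S.Q b := by
  intro x hx
  exact ((S.mem_qi).mp (FbR_sub_qi S σA s b hx)).1

/-- a potential with values in the windows off the centre and the ports extends to a complete
block -/
theorem exists_comp (S : Sys ι 𝔅) {b : 𝔅} {V : ι → ℝ}
    (h : ∀ x ∈ S.inn b, V x ∈ Set.Icc (S.lo b x) (S.hi b x)) :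
    ∃ V', S.comp b V' ∧ ∀ x ∈ S.inn b, V' x = V x := by
  refine ⟨fun x => if x ∈ S.inn b then V x else S.lo b x, ?_, fun x hx => if_pos hx⟩
  intro x hx hw
  by_cases hi : x ∈ S.inn b
  · simp only [if_pos hi]; exact h x hi
  · simp only [if_neg hi]
    exact ⟨le_refl _, (S.lo_lt b x).le⟩

section est

variable {S : Sys ι 𝔅} {A : Matrix ι ι ℝ} {α : ℝ} {CI NI glo : ℕ → ℝ}

/-- the three block estimates with one constant -/
theorem est_block (hS : Good S A) (hQ : Quant S A α CI NI glo) {b : 𝔅} {V : ι → ℝ} {v : ι → ℂ}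
    (hV : ∀ x ∈ S.inn b, V x ∈ Set.Icc (S.lo b x) (S.hi b x))
    (hre : ∀ x ∈ S.inn b, (v x).re = V x) (h0 : ∀ x ∈ S.inn b, 0 ≤ gam v x)
    (h2 : ∀ x ∈ S.inn b, gam v x ≤ 2) :
    EstB A v (S.inn b) (Gb α (CI (S.cls b)) (NI (S.cls b)) (glo (S.cls b)) S.r) ∧
    (S.gg A b V ≤ gam v (S.w b) →
      EstB A v (S.qi b) (Gb α (CI (S.cls b)) (NI (S.cls b)) (glo (S.cls b)) S.r)) ∧
    (S.r ≤ ‖v (S.w b) - (S.ze A b V : ℂ)‖ → (∀ x ∈ S.inn b, gam v x ≤ S.et (S.cls b)) →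
      8 * α ^ 2 * (CI (S.cls b) * NI (S.cls b)) ^ 3 * S.et (S.cls b) ≤ min S.r 1 →
      EstB A v (S.qi b) (Gb α (CI (S.cls b)) (NI (S.cls b)) (glo (S.cls b)) S.r)) := by
  obtain ⟨V', hc, hV'⟩ := exists_comp S hV
  set K := CI (S.cls b) with hK
  set N := NI (S.cls b) with hN
  set g := glo (S.cls b) with hg
  have hK1 : 1 ≤ K := hQ.one_CI _
  have hN1 : 1 ≤ N := hQ.one_NI _
  have hg0 : 0 < g := hQ.glo_pos _
  have hg1 : g ≤ 1 := hQ.glo_le _
  have hα1 : 1 ≤ α := hQ.one_α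
  have hr0 : 0 < min S.r 1 := lt_min S.r_pos one_pos
  have hr1 : min S.r 1 ≤ 1 := min_le_right _ _
  set ρ := min S.r 1 with hρ
  have hdet : (HS A (S.inn b) V').det ≠ 0 := hS.inv b V' hc
  have hre' : ∀ x ∈ S.inn b, (v x).re = V' x := fun x hx => by rw [hV' x hx]; exact hre x hx
  have hcard : ((S.inn b).card : ℝ) ≤ N := by have := hQ.card_le b; linarith
  have hKN : 1 ≤ K * N := by nlinarith
  have hP : EstB A v (S.inn b) (4 * (K * N) ^ 2) :=
    est_inn hS.symm hdet hre' h0 h2 (hQ.RS_le b V' hc) hcard hKN (by linarith)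
  have hgr : g * ρ ≤ 1 := by nlinarith
  have hgr0 : 0 < g * ρ := mul_pos hg0 hr0
  have hα2 : 1 ≤ α ^ 2 := by nlinarith
  have hKN2 : (K * N) ^ 2 ≤ (K * N) ^ 5 := pow_le_pow_right₀ hKN (by norm_num)
  have hKN3 : (K * N) ^ 3 ≤ (K * N) ^ 5 := pow_le_pow_right₀ hKN (by norm_num)
  have hP1 : 1 ≤ 4 * (K * N) ^ 2 := by nlinarith
  refine ⟨hP.mono ?_, fun hgw => ?_, fun hze hδ hsm => ?_⟩
  · unfold Gb
    rw [le_div_iff₀ hgr0]
    have e1 : 4 * (K * N) ^ 2 * (g * ρ) ≤ 4 * (K * N) ^ 5 * 1 :=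
      mul_le_mul (by linarith) hgr hgr0.le (by positivity)
    have e2 : 4 * (K * N) ^ 5 ≤ 75 * α ^ 2 * (K * N) ^ 5 := by
      apply mul_le_mul_of_nonneg_right _ (by positivity)
      linarith
    linarith
  · rw [qi_eq]
    have hgg : g ≤ gam v (S.w b) := by
      have h1 := hQ.g_ge b V' hc
      rw [S.gg_congr A hV'] at h1
      exact h1.trans hgw
    have h := est_act (N := N) hS.symm (w_notMem_inn S b) hQ.row hα1 h0 hg0 hgg hP hP1
      (hQ.card_le b) (hg1.trans hN1)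
    refine h.mono ?_
    unfold Gb
    have e1 : 4 * (K * N) ^ 2 * α + 1 ≤ 5 * (K * N) ^ 2 * α := by nlinarith
    have e2 : 3 * (4 * (K * N) ^ 2 * α + 1) ^ 2 * N ≤ 75 * α ^ 2 * (K * N) ^ 5 := by
      have e3 : (4 * (K * N) ^ 2 * α + 1) ^ 2 ≤ (5 * (K * N) ^ 2 * α) ^ 2 :=
        pow_le_pow_left₀ (by positivity) e1 2
      have e4 : N ≤ K * N := by nlinarith
      calc 3 * (4 * (K * N) ^ 2 * α + 1) ^ 2 * N ≤ 3 * (5 * (K * N) ^ 2 * α) ^ 2 * (K * N) :=
            mul_le_mul (by linarith) e4 (by linarith) (by positivity)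
        _ = 75 * α ^ 2 * (K * N) ^ 5 := by ring
    rw [div_le_div_iff₀ hg0 hgr0]
    have e5 : 3 * (4 * (K * N) ^ 2 * α + 1) ^ 2 * N * (g * ρ) ≤
        75 * α ^ 2 * (K * N) ^ 5 * (g * 1) :=
      mul_le_mul e2 (mul_le_mul_of_nonneg_left hr1 hg0.le) hgr0.le (by positivity)
    linarith
  · rw [qi_eq]
    have hze' : S.ze A b V' = S.ze A b V := S.ze_congr A hV'
    have hρ' : ρ ≤ ‖v (S.w b) - (S.ze A b V' : ℂ)‖ := by
      rw [hze']; exact (min_le_left _ _).trans hze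
    have het0 : 0 < S.et (S.cls b) := S.et_pos _
    set δ := S.et (S.cls b) with hδd
    have hX : 8 * (α ^ 2 * (K * N) ^ 3 * δ) ≤ ρ := by
      calc _ = 8 * α ^ 2 * (K * N) ^ 3 * δ := by ring
        _ ≤ ρ := hsm
    have h := est_res (A := A) (v := v) (I := S.inn b) (V := V') (w := S.w b) (α := α) (K := K)
      (N := N) (P0 := 4 * (K * N) ^ 2) (δ := δ) (ρ := ρ) (ze := S.ze A b V') hS.symm
      (w_notMem_inn S b) hQ.row hα1 hdet hre' h0 hδ (hQ.RS_le b V' hc) hcard (by linarith)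
      (by linarith) hP hP1 (by rw [Sys.ze]) hr0 hρ' ?_ het0.le ?_
    · refine h.mono ?_
      unfold Gb
      rw [le_div_iff₀ hgr0]
      have e0 : 0 ≤ α * (K * N) := by positivity
      have e1 : 2 / ρ * (1 + 2 * (α * (K * N))) ≤ 6 / ρ * (α * (K * N)) := by
        rw [div_mul_eq_mul_div, div_mul_eq_mul_div, div_le_div_iff_of_pos_right hr0]
        nlinarith
      have e2 : (2 / ρ * (1 + 2 * (α * (K * N)))) * ρ ≤ 6 * (α * (K * N)) := by
        have := mul_le_mul_of_nonneg_right e1 hr0.le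
        calc _ ≤ _ := this
          _ = _ := by field_simp
      set T := 2 / ρ * (1 + 2 * (α * (K * N))) with hT
      have hT0 : 0 ≤ T := by positivity
      have e3 : (T + 4 * (K * N) ^ 2 * (1 + α * T)) * (g * ρ) ≤
          (T + 4 * (K * N) ^ 2 * (1 + α * T)) * ρ := by
        apply mul_le_mul_of_nonneg_left _ (by positivity)
        nlinarith
      have e4 : (T + 4 * (K * N) ^ 2 * (1 + α * T)) * ρ =
          T * ρ + 4 * (K * N) ^ 2 * ρ + 4 * (K * N) ^ 2 * α * (T * ρ) := by ring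
      have e5 : T * ρ ≤ 6 * (α * (K * N)) := e2
      have e6 : 4 * (K * N) ^ 2 * α * (T * ρ) ≤ 4 * (K * N) ^ 2 * α * (6 * (α * (K * N))) :=
        mul_le_mul_of_nonneg_left e5 (by positivity)
      have e7 : 4 * (K * N) ^ 2 * α * (6 * (α * (K * N))) = 24 * α ^ 2 * (K * N) ^ 3 := by ring
      have e8 : 4 * (K * N) ^ 2 * ρ ≤ 4 * α ^ 2 * (K * N) ^ 5 := by
        have : 4 * (K * N) ^ 2 * ρ ≤ 4 * (K * N) ^ 2 * 1 :=
          mul_le_mul_of_nonneg_left hr1 (by positivity)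
        nlinarith
      have e9 : 6 * (α * (K * N)) ≤ 6 * (α ^ 2 * (K * N) ^ 5) := by
        have a1 : α ≤ α ^ 2 := by nlinarith
        have a2 : K * N ≤ (K * N) ^ 5 := by
          calc K * N = (K * N) ^ 1 := (pow_one _).symm
            _ ≤ _ := pow_le_pow_right₀ hKN (by norm_num)
        have := mul_le_mul a1 a2 (by linarith) (by positivity)
        linarith
      have e10 : 24 * α ^ 2 * (K * N) ^ 3 ≤ 24 * α ^ 2 * (K * N) ^ 5 :=
        mul_le_mul_of_nonneg_left hKN3 (by positivity)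
      have e11 : 0 ≤ α ^ 2 * (K * N) ^ 5 := by positivity
      nlinarith
    · -- δ P0 ≤ 1
      have a1 : (K * N) ^ 2 ≤ α ^ 2 * (K * N) ^ 3 := by
        have : (K * N) ^ 2 ≤ (K * N) ^ 3 := pow_le_pow_right₀ hKN (by norm_num)
        nlinarith [sq_nonneg (K * N)]
      nlinarith [mul_le_mul_of_nonneg_left a1 het0.le]
    · have : α ^ 2 * (K * N) * δ * (4 * (K * N) ^ 2) = 4 * (α ^ 2 * (K * N) ^ 3 * δ) := by ring
      rw [this]
      linarith

end est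

section reg

variable {S : Sys ι 𝔅} {A : Matrix ι ι ℝ} {b0 : 𝔅} {σ σC σA C0 Ac0 : Finset 𝔅} {s : ι}
  {V : ι → ℝ} {a : ℝ}

/-- a block which meets `Q b`, `b ∈ σ`, is not in `C0` -/
theorem RD.out_not (hR : RD S b0 σ σC σA C0 Ac0 s V) {b : 𝔅} (hb : b ∈ σ) {x : ι}
    (hx : x ∈ S.Q b) {b' : 𝔅} (hb' : b' ∈ C0) : x ∉ S.Q b' := by
  intro h
  refine Finset.disjoint_left.mp (hR.out b' hb') h ?_
  unfold Reg
  exact mem_union_right _ (mem_biUnion.mpr ⟨b, hb, hx⟩)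

theorem RD.eq_of_mem (hR : RD S b0 σ σC σA C0 Ac0 s V) {b b' : 𝔅} (hb : b ∈ σ) (hb' : b' ∈ σ)
    {x : ι} (hx : x ∈ S.Q b) (hx' : x ∈ S.Q b') : b = b' := by
  by_contra h
  exact Finset.disjoint_left.mp (hR.dj b hb b' hb' h) hx hx'

/-- the background in a block of `σ` -/
theorem bg_inn (hR : RD S b0 σ σC σA C0 Ac0 s V) {b : 𝔅} (hb : b ∈ σ) {x : ι}
    (hx : x ∈ S.inn b) :
    a + ∑ b ∈ C0 ∪ σC, (if x ∈ S.inn b then S.et (S.cls b) - a else 0) =
      if b ∈ σC then S.et (S.cls b) else a := by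
  have h1 : ∀ b' ∈ C0 ∪ σC, b' ≠ b → (if x ∈ S.inn b' then S.et (S.cls b') - a else 0) = 0 := by
    intro b' hb' hne
    rw [if_neg]
    intro h
    rcases mem_union.mp hb' with h' | h'
    · exact hR.out_not hb (S.inn_sub hx) h' (S.inn_sub h)
    · exact hne (hR.eq_of_mem (hR.CS h') hb (S.inn_sub h) (S.inn_sub hx))
  by_cases hbC : b ∈ σC
  · rw [if_pos hbC, Finset.sum_eq_single b h1 (fun h => absurd (mem_union_right _ hbC) h),
      if_pos hx]
    ring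
  · rw [if_neg hbC, Finset.sum_eq_zero, add_zero]
    intro b' hb'
    by_cases hne : b' = b
    · exfalso
      rw [hne] at hb'
      rcases mem_union.mp hb' with h | h
      · exact hR.out_not hb (S.inn_sub hx) h (S.inn_sub hx)
      · exact hbC h
    · exact h1 b' hb' hne

theorem bg_w (hR : RD S b0 σ σC σA C0 Ac0 s V) {b : 𝔅} (hb : b ∈ σ) :
    a + ∑ b' ∈ C0 ∪ σC, (if S.w b ∈ S.inn b' then S.et (S.cls b') - a else 0) = a := by
  rw [Finset.sum_eq_zero, add_zero]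
  intro b' hb'
  rw [if_neg]
  intro h
  rcases mem_union.mp hb' with h' | h'
  · exact hR.out_not hb (S.w_mem b) h' (S.inn_sub h)
  · have := hR.eq_of_mem (hR.CS h') hb (S.inn_sub h) (S.w_mem b)
    rw [this] at h
    exact w_notMem_inn S b h

/-- the values of the potential at the inner sites -/
theorem uC_inn (hR : RD S b0 σ σC σA C0 Ac0 s V) {b : 𝔅} (hb : b ∈ σ) {x : ι}
    (hx : x ∈ S.inn b) : uC S A a (C0 ∪ σC) (Ac0 ∪ σA) V x =
      (V x : ℂ) - ((if b ∈ σC then S.et (S.cls b) else a : ℝ) : ℂ) * Complex.I := by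
  unfold uC
  rw [bg_inn hR hb hx, Finset.sum_eq_zero, add_zero]
  intro b' hb'
  rw [if_neg]
  rintro rfl
  rcases mem_union.mp hb' with h | h
  · exact hR.out_not hb (S.inn_sub hx) (hR.act h) (S.w_mem b')
  · have := hR.eq_of_mem (hR.CS (hR.AC h)) hb (S.w_mem b') (S.inn_sub hx)
    rw [← this] at hx
    exact w_notMem_inn S b' hx

/-- the value of the potential at an active centre -/
theorem uC_w (hR : RD S b0 σ σC σA C0 Ac0 s V) {b : 𝔅} (hb : b ∈ σA) :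
    uC S A a (C0 ∪ σC) (Ac0 ∪ σA) V (S.w b) =
      (S.ze A b V : ℂ) - ((S.gg A b V + S.et (S.cls b) : ℝ) : ℂ) * Complex.I := by
  have hbσ := hR.CS (hR.AC hb)
  unfold uC
  rw [bg_w hR hbσ, Finset.sum_eq_single b]
  · rw [if_pos rfl]
    push_cast
    ring
  · intro b' hb' hne
    rw [if_neg]
    intro h
    rcases mem_union.mp hb' with h' | h'
    · exact hR.out_not hbσ (S.w_mem b) (hR.act h') (by rw [h]; exact S.w_mem b')
    · exact hne (hR.eq_of_mem (hR.CS (hR.AC h')) hbσ (S.w_mem b') (by rw [← h]; exact S.w_mem b))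
  · intro h
    exact absurd (mem_union_right _ hb) h

variable {α : ℝ} {CI NI glo : ℕ → ℝ} {Γ0 : ℝ} {us : ℂ}

/-- all block estimates of a region -/
theorem est_reg (hS : Good S A) (hQ : Quant S A α CI NI glo)
    (hR : RD S b0 σ σC σA C0 Ac0 s V) (ha : 0 < a) (ha2 : a ≤ 2)
    (hΓ0 : ∀ b ∈ σ, Gb α (CI (S.cls b)) (NI (S.cls b)) (glo (S.cls b)) S.r ≤ Γ0)
    (hus0 : us.im ≤ 0) (hus2 : ∀ b ∈ σ, s ∈ S.inn b → -2 ≤ us.im)
    (hga : ∀ b ∈ σ, s ∈ S.inn b → us.re ∈ Set.Icc (S.lo b s) (S.hi b s))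
    (hde : ∀ b ∈ σ, s = S.w b → b ∈ σC ∧ |us.re| = S.c ∧
      8 * α ^ 2 * (CI (S.cls b) * NI (S.cls b)) ^ 3 * S.et (S.cls b) ≤ min S.r 1)
    {b : 𝔅} (hb : b ∈ σ) :
    EstB A (Function.update (uC S A a (C0 ∪ σC) (Ac0 ∪ σA) V) s us) (FbR S σA s b) Γ0 := by
  set v := Function.update (uC S A a (C0 ∪ σC) (Ac0 ∪ σA) V) s us with hv
  -- the real potential with the right value at `s`
  set V1 : ι → ℝ := Function.update V s us.re with hV1
  have hwin : ∀ x ∈ S.inn b, V1 x ∈ Set.Icc (S.lo b x) (S.hi b x) := by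
    intro x hx
    by_cases hxs : x = s
    · subst hxs
      rw [hV1, Function.update_self]
      exact hga b hb hx
    · rw [hV1, Function.update_of_ne hxs]
      exact hR.win b hb x hx hxs
  have hvx : ∀ x ∈ S.inn b, x ≠ s → v x =
      (V x : ℂ) - ((if b ∈ σC then S.et (S.cls b) else a : ℝ) : ℂ) * Complex.I := by
    intro x hx hxs
    rw [hv, Function.update_of_ne hxs, uC_inn hR hb hx]
  have hre : ∀ x ∈ S.inn b, (v x).re = V1 x := by
    intro x hx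
    by_cases hxs : x = s
    · subst hxs
      rw [hv, hV1, Function.update_self, Function.update_self]
    · rw [hvx x hx hxs, hV1, Function.update_of_ne hxs]
      simp
  have hgam : ∀ x ∈ S.inn b, x ≠ s → gam v x = if b ∈ σC then S.et (S.cls b) else a := by
    intro x hx hxs
    unfold gam
    rw [hvx x hx hxs]
    simp
  have hbg0 : 0 ≤ (if b ∈ σC then S.et (S.cls b) else a : ℝ) := by
    split_ifs
    · exact (S.et_pos _).le
    · exact ha.le
  have hbg2 : (if b ∈ σC then S.et (S.cls b) else a : ℝ) ≤ 2 := by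
    split_ifs
    · exact (S.et_le _).trans (by norm_num)
    · exact ha2
  have hgs : gam v s = -us.im := by
    unfold gam; rw [hv, Function.update_self]
  have h0 : ∀ x ∈ S.inn b, 0 ≤ gam v x := by
    intro x hx
    by_cases hxs : x = s
    · rw [hxs, hgs]; linarith
    · rw [hgam x hx hxs]; exact hbg0
  have h2 : ∀ x ∈ S.inn b, gam v x ≤ 2 := by
    intro x hx
    by_cases hxs : x = s
    · rw [hxs] at hx
      rw [hxs, hgs]; linarith [hus2 b hb hx]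
    · rw [hgam x hx hxs]; exact hbg2
  obtain ⟨e1, e2, e3⟩ := est_block hS hQ hwin hre h0 h2
  unfold FbR
  split_ifs with h
  · rcases h with h | h
    · -- active centre
      refine (e2 ?_).mono (hΓ0 b hb)
      have hws : S.w b ≠ s := fun h' => hR.sA b h h'.symm
      have hgg : S.gg A b V1 = S.gg A b V := by
        apply S.gg_congr
        intro x hx
        rw [hV1, Function.update_of_ne]
        rintro rfl
        exact hR.sC b (hR.AC h) hx
      unfold gam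
      rw [hgg, hv, Function.update_of_ne hws, uC_w hR h]
      have := S.et_pos (S.cls b)
      simp
      linarith
    · -- `s` is the centre
      obtain ⟨hbC, hc, hsm⟩ := hde b hb h
      refine (e3 ?_ ?_ hsm).mono (hΓ0 b hb)
      · rw [hv, ← h, Function.update_self]
        obtain ⟨V', hc', hV'⟩ := exists_comp S hwin
        have hz : S.ze A b V1 = S.ze A b V' := (S.ze_congr A hV').symm
        have hze := hS.ze_mem b V' hc'
        rw [← hz] at hze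
        have h3 : |us.re - S.ze A b V1| ≤ ‖us - (S.ze A b V1 : ℂ)‖ := by
          have := Complex.abs_re_le_norm (us - (S.ze A b V1 : ℂ))
          simpa using this
        have h4 : |us.re| - |S.ze A b V1| ≤ |us.re - S.ze A b V1| :=
          abs_sub_abs_le_abs_sub _ _
        have := S.r_pos
        linarith
      · intro x hx
        have hxs : x ≠ s := by
          rw [h]; exact ((S.mem_inn).mp hx).1
        rw [hgam x hx hxs, if_pos hbC]
  · exact e1.mono (hΓ0 b hb)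

theorem inn_sub_FbR (S : Sys ι 𝔅) (σA : Finset 𝔅) (s : ι) (b : 𝔅) :
    S.inn b ⊆ FbR S σA s b := by
  intro x hx
  unfold FbR
  split_ifs
  · rw [qi_eq]; exact mem_insert_of_mem hx
  · exact hx

theorem mem_Fz {y : ι} : y ∈ Fz S σ σA s ↔
    y ≠ s ∧ ((∃ b ∈ σ, y ∈ S.inn b) ∨ ∃ b ∈ σA, S.w b = y) := by
  unfold Fz
  simp

theorem mem_Lm {y : ι} : y ∈ Lm S b0 σ σA s ↔
    y ≠ s ∧ y ∈ Reg S b0 σ ∧ y ∉ Fz S σ σA s := by
  unfold Lm
  simp

theorem Q_sub_Reg {b : 𝔅} (hb : b ∈ σ) : S.Q b ⊆ Reg S b0 σ := by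
  intro x hx
  unfold Reg
  exact mem_union_right _ (mem_biUnion.mpr ⟨b, hb, hx⟩)

theorem Q0_sub_Reg : S.Q b0 ⊆ Reg S b0 σ := by
  intro x hx
  unfold Reg
  exact mem_union_left _ hx

/-- a frozen site in a block of `σ` is in its frozen part -/
theorem RD.mem_Fb (hR : RD S b0 σ σC σA C0 Ac0 s V) {y : ι} (hy : y ∈ Fz S σ σA s) {b : 𝔅}
    (hb : b ∈ σ) (hyb : y ∈ S.Q b) : y ∈ FbR S σA s b := by
  obtain ⟨_, ⟨b', hb', h⟩ | ⟨b', hb', h⟩⟩ := mem_Fz.mp hy
  · have := hR.eq_of_mem hb' hb (S.inn_sub h) hyb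
    rw [this] at h
    exact inn_sub_FbR S σA s b h
  · have h1 : y ∈ S.Q b' := by rw [← h]; exact S.w_mem b'
    have := hR.eq_of_mem (hR.CS (hR.AC hb')) hb h1 hyb
    rw [this] at h hb'
    unfold FbR
    rw [if_pos (Or.inl hb'), qi_eq, ← h]
    exact mem_insert_self _ _

/-- neighbours of the inner block are in the block -/
theorem nb_mem (hS : Good S A) {b : 𝔅} {x y : ι} (hx : x ∈ S.qi b) (h : A x y ≠ 0) : y ∈ S.Q b := by
  by_contra hy
  exact h (hS.sep b x hx y hy)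

theorem fam_reg (hS : Good S A) (hQ : Quant S A α CI NI glo)
    (hR : RD S b0 σ σC σA C0 Ac0 s V) (ha : 0 < a) (ha2 : a ≤ 2)
    (hΓ0 : ∀ b ∈ σ, Gb α (CI (S.cls b)) (NI (S.cls b)) (glo (S.cls b)) S.r ≤ Γ0) (hΓ1 : 1 ≤ Γ0)
    (hus0 : us.im ≤ 0) (hus2 : ∀ b ∈ σ, s ∈ S.inn b → -2 ≤ us.im)
    (hga : ∀ b ∈ σ, s ∈ S.inn b → us.re ∈ Set.Icc (S.lo b s) (S.hi b s))
    (hde : ∀ b ∈ σ, s = S.w b → b ∈ σC ∧ |us.re| = S.c ∧
      8 * α ^ 2 * (CI (S.cls b) * NI (S.cls b)) ^ 3 * S.et (S.cls b) ≤ min S.r 1) :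
    Fam A (uC S A a (C0 ∪ σC) (Ac0 ∪ σA) V) (Lm S b0 σ σA s) (Fz S σ σA s) s us σ
      (FbR S σA s) Γ0 α where
  row := hQ.row
  one_α := hQ.one_α
  one_Γ := hΓ1
  est := fun b hb => est_reg hS hQ hR ha ha2 hΓ0 hus0 hus2 hga hde hb
  sub := by
    intro b hb y hy
    by_cases hys : y = s
    · rw [hys]; exact mem_insert_self _ _
    · refine mem_insert_of_mem (mem_Fz.mpr ⟨hys, ?_⟩)
      unfold FbR at hy
      split_ifs at hy with h
      · rw [qi_eq, mem_insert] at hy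
        rcases hy with hy | hy
        · rcases h with h | h
          · exact Or.inr ⟨b, h, hy.symm⟩
          · exact absurd (hy.trans h.symm) hys
        · exact Or.inl ⟨b, hb, hy⟩
      · exact Or.inl ⟨b, hb, hy⟩
  cov := by
    intro y hy
    obtain ⟨_, ⟨b, hb, h⟩ | ⟨b, hb, h⟩⟩ := mem_Fz.mp hy
    · exact ⟨b, hb, inn_sub_FbR S σA s b h⟩
    · refine ⟨b, hR.CS (hR.AC hb), ?_⟩
      unfold FbR
      rw [if_pos (Or.inl hb), qi_eq, ← h]
      exact mem_insert_self _ _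
  cl := by
    intro b hb x hx y hy hA
    by_cases hys : y = s
    · exact Or.inr hys
    · have hyQ := nb_mem hS (FbR_sub_qi S σA s b hx) hA
      refine Or.inl (mem_Lm.mpr ⟨hys, Q_sub_Reg hb hyQ, fun hF => hy (hR.mem_Fb hF hb hyQ)⟩)

/-- everything of `LW.Setup` -/
theorem setup_reg (hS : Good S A) (hR : RD S b0 σ σC σA C0 Ac0 s V) (hC0 : C0 ⊆ S.Comp V)
    (ha : 0 < a) (ha2 : a ≤ 1 / 2) {R : ℝ} (hRc : 3 * S.c + 3 ≤ R) :
    Setup S.c a A (uC S A a (C0 ∪ σC) (Ac0 ∪ σA) V) (Lm S b0 σ σA s) (Fz S σ σA s) s R where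
  symm := hS.symm
  c_pos := S.c_pos
  a_pos := ha
  a_le := ha2
  R_ge := hRc
  loss := by
    intro x
    -- the background is positive
    have hbg : 0 < a + ∑ b ∈ C0 ∪ σC, (if x ∈ S.inn b then S.et (S.cls b) - a else 0) := by
      by_cases h : ∃ b ∈ C0 ∪ σC, x ∈ S.inn b
      · obtain ⟨b, hb, hx⟩ := h
        have : ∑ b ∈ C0 ∪ σC, (if x ∈ S.inn b then S.et (S.cls b) - a else 0) =
            S.et (S.cls b) - a := by
          rw [Finset.sum_eq_single b]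
          · rw [if_pos hx]
          · intro b' hb' hne
            rw [if_neg]
            intro hx'
            rcases mem_union.mp hb with h1 | h1 <;> rcases mem_union.mp hb' with h2 | h2
            · exact S.not_mem_of_ne (hC0 h1) (hC0 h2) hne (S.inn_sub hx') (S.inn_sub hx)
            · exact hR.out_not (hR.CS h2) (S.inn_sub hx') h1 (S.inn_sub hx)
            · exact hR.out_not (hR.CS h1) (S.inn_sub hx) h2 (S.inn_sub hx')
            · exact hne (hR.eq_of_mem (hR.CS h2) (hR.CS h1) (S.inn_sub hx') (S.inn_sub hx))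
          · intro h; exact absurd hb h
        rw [this]
        have := S.et_pos (S.cls b)
        linarith
      · push Not at h
        rw [Finset.sum_eq_zero, add_zero]
        · exact ha
        · intro b hb; rw [if_neg (h b hb)]
    by_cases h : ∃ b ∈ Ac0 ∪ σA, x = S.w b
    · obtain ⟨b, hb, hx⟩ := h
      rcases mem_union.mp hb with hb' | hb'
      · -- a centre outside the region
        have hbC := hC0 (hR.act hb')
        have hnot : ∀ b' ∈ C0 ∪ σC, x ∉ S.inn b' := by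
          intro b' hb2 hx2
          rcases mem_union.mp hb2 with h2 | h2
          · by_cases hne : b' = b
            · rw [hne, hx] at hx2
              exact w_notMem_inn S b hx2
            · refine S.not_mem_of_ne (hC0 h2) hbC (Ne.symm hne) ?_ (S.inn_sub hx2)
              rw [hx]; exact S.w_mem b
          · refine hR.out_not (hR.CS h2) (S.inn_sub hx2) (hR.act hb') ?_
            rw [hx]; exact S.w_mem b
        unfold uC
        rw [Finset.sum_eq_zero (fun b' hb2 => if_neg (hnot b' hb2)), Finset.sum_eq_single b]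
        · rw [if_pos hx]
          have h1 := hS.g_pos b V ((S.mem_Comp).mp hbC)
          have h2 := S.et_pos (S.cls b)
          simp
          linarith
        · intro b' hb2 hne
          rw [if_neg]
          intro hx2
          rcases mem_union.mp hb2 with h2 | h2
          · refine S.not_mem_of_ne (hC0 (hR.act h2)) hbC (Ne.symm hne) (x := x) ?_ ?_
            · rw [hx]; exact S.w_mem b
            · rw [hx2]; exact S.w_mem b'
          · refine hR.out_not (hR.CS (hR.AC h2)) (x := x) ?_ (hR.act hb') ?_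
            · rw [hx2]; exact S.w_mem b'
            · rw [hx]; exact S.w_mem b
        · intro h; exact absurd hb h
      · rw [hx, uC_w hR hb']
        obtain ⟨V', hc', hV'⟩ := exists_comp S (b := b) (V := V) (fun y hy =>
          hR.win b (hR.CS (hR.AC hb')) y hy (fun h => hR.sC b (hR.AC hb') (h ▸ hy)))
        have h1 := hS.g_pos b V' hc'
        rw [S.gg_congr A hV'] at h1
        have h2 := S.et_pos (S.cls b)
        simp
        linarith
    · push Not at h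
      unfold uC
      rw [Finset.sum_eq_zero (s := Ac0 ∪ σA) (fun b hb => if_neg (h b hb)), add_zero,
        Complex.sub_im, Complex.ofReal_im, Complex.im_ofReal_mul, Complex.I_im]
      linarith
  frz := by
    intro y hy
    obtain ⟨hys, ⟨b, hb, h⟩ | ⟨b, hb, h⟩⟩ := mem_Fz.mp hy
    · rw [uC_inn hR hb h]
      have h1 := hR.win b hb y h hys
      have h2 : |V y| ≤ S.c := abs_le.mpr ⟨(S.lo_ge b y).trans h1.1, h1.2.trans (S.hi_le b y)⟩
      refine (norm_sub_le _ _).trans ?_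
      rw [norm_mul, Complex.norm_real, Complex.norm_real, Complex.norm_I, mul_one,
        Real.norm_eq_abs, Real.norm_eq_abs]
      have h3 : |if b ∈ σC then S.et (S.cls b) else a| ≤ 1 := by
        split_ifs
        · rw [abs_of_pos (S.et_pos _)]; exact S.et_le _
        · rw [abs_of_pos ha]; linarith
      have := S.c_pos
      linarith
    · rw [← h, uC_w hR hb]
      obtain ⟨V', hc', hV'⟩ := exists_comp S (b := b) (V := V) (fun y hy =>
        hR.win b (hR.CS (hR.AC hb)) y hy (fun h => hR.sC b (hR.AC hb) (h ▸ hy)))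
      have h1 := hS.ze_mem b V' hc'
      have h2 := hS.g_le b V' hc'
      have h3 := hS.g_pos b V' hc'
      rw [S.gg_congr A hV'] at h2 h3
      rw [S.ze_congr A hV'] at h1
      refine (norm_sub_le _ _).trans ?_
      rw [norm_mul, Complex.norm_real, Complex.norm_real, Complex.norm_I, mul_one,
        Real.norm_eq_abs, Real.norm_eq_abs,
        abs_of_pos (show 0 < S.gg A b V + S.et (S.cls b) by linarith [S.et_pos (S.cls b)])]
      have h4 := S.et_le (S.cls b)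
      have h5 := abs_nonneg (S.ze A b V)
      have h6 := S.r_pos
      have := S.c_pos
      linarith
  s_lam := fun h => (mem_Lm.mp h).1 rfl
  s_frz := fun h => (mem_Fz.mp h).1 rfl
  disj := by
    rw [Finset.disjoint_left]
    intro x hx hx'
    exact (mem_Lm.mp hx).2.2 hx'

/-- the constant of (G) and (F) -/
noncomputable def GamR (α Γ0 : ℝ) (n : ℕ) : ℝ := 108 * (Γ0 ^ 4 * α ^ 6) * (n + 1)

/-- **(G) and (F) for a region** -/
theorem hyp_reg (hS : Good S A) (hQ : Quant S A α CI NI glo) (hN : Nb S A b0)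
    (hR : RD S b0 σ σC σA C0 Ac0 s V) (hC0 : C0 ⊆ S.Comp V) (ha : 0 < a) (ha2 : a ≤ 1 / 2)
    (hΓ0 : ∀ b ∈ σ, Gb α (CI (S.cls b)) (NI (S.cls b)) (glo (S.cls b)) S.r ≤ Γ0) (hΓ1 : 1 ≤ Γ0)
    (hus0 : us.im < 0) (hus2 : ∀ b ∈ σ, s ∈ S.inn b → -2 ≤ us.im)
    (hga : ∀ b ∈ σ, s ∈ S.inn b → us.re ∈ Set.Icc (S.lo b s) (S.hi b s))
    (hde : ∀ b ∈ σ, s = S.w b → b ∈ σC ∧ |us.re| = S.c ∧
      8 * α ^ 2 * (CI (S.cls b) * NI (S.cls b)) ^ 3 * S.et (S.cls b) ≤ min S.r 1) :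
    HypG A (uC S A a (C0 ∪ σC) (Ac0 ∪ σA) V) (Lm S b0 σ σA s) (Fz S σ σA s) s
      (GamR α Γ0 (Fz S σ σA s).card) us ∧
    ∀ x, x ∉ Reg S b0 σ →
      HypF S.c a A (uC S A a (C0 ∪ σC) (Ac0 ∪ σA) V) (Lm S b0 σ σA s) (Fz S σ σA s) s x
        (GamR α Γ0 (Fz S σ σA s).card) us := by
  have hSet := setup_reg hS hR hC0 ha ha2 (le_refl (3 * S.c + 3))
  have hF := fam_reg hS hQ hR ha (by linarith) hΓ0 hΓ1 hus0.le hus2 hga hde
  have hα1 := hQ.one_α
  have hn : (0 : ℝ) ≤ ((Fz S σ σA s).card : ℝ) := Nat.cast_nonneg _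
  have hα6 : 1 ≤ α ^ 6 := one_le_pow₀ hα1
  have hG4 : 1 ≤ Γ0 ^ 4 := one_le_pow₀ hΓ1
  have hbase : 1 ≤ Γ0 ^ 4 * α ^ 6 := by nlinarith
  have hGam1 : 108 * (Γ0 ^ 4 * α ^ 6) ≤ GamR α Γ0 (Fz S σ σA s).card := by
    unfold GamR
    nlinarith
  have hG2 : (Γ0 * α) ^ 2 ≤ Γ0 ^ 4 * α ^ 6 := by
    rw [mul_pow]
    exact mul_le_mul (pow_le_pow_right₀ hΓ1 (by norm_num)) (pow_le_pow_right₀ hα1 (by norm_num))
      (by positivity) (by positivity)
  constructor
  · by_cases hfr : ∃ b ∈ σ, s ∈ FbR S σA s b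
    · refine hypG_frozen hSet hF hus0 hfr (fun b hb x hx y hy hA => ?_) (le_trans ?_ hGam1)
      · rcases hF.cl b hb x hx y hy hA with h | h
        · exact h
        · exfalso
          obtain ⟨b1, hb1, hs1⟩ := hfr
          have hyQ := nb_mem hS (FbR_sub_qi S σA s b hx) hA
          rw [h] at hyQ hy
          have := hR.eq_of_mem hb1 hb (FbR_sub_Q S σA s b1 hs1) hyQ
          rw [this] at hs1
          exact hy hs1
      · nlinarith
    · push Not at hfr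
      -- `s` is not in the inner block of any block of `σ`
      have hsq : ∀ b ∈ σ, s ∈ S.Q b → s ∈ S.L b := by
        intro b hb hsb
        by_contra hL
        have hq : s ∈ S.qi b := (S.mem_qi).mpr ⟨hsb, hL⟩
        rw [qi_eq, mem_insert] at hq
        rcases hq with h | h
        · apply hfr b hb
          unfold FbR
          rw [if_pos (Or.inr h), qi_eq, h]
          exact mem_insert_self _ _
        · exact hfr b hb (inn_sub_FbR S σA s b h)
      -- the neighbour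
      obtain ⟨yo, hyos, hyo1, hyo2⟩ : ∃ yo, yo ≠ s ∧ 1 ≤ |A yo s| ∧
          ∀ b ∈ σ, s ∈ S.Q b → yo ∉ S.Q b := by
        by_cases h : ∃ b ∈ σ, s ∈ S.Q b
        · obtain ⟨b, hb, hsb⟩ := h
          have hL := hsq b hb hsb
          rw [hR.s_eq] at hL
          obtain ⟨y, h1, h2, h3⟩ := hN.port b hL
          rw [← hR.s_eq] at h1 h3
          refine ⟨y, h1, h3, fun b' hb' hsb' => ?_⟩
          rw [hR.eq_of_mem hb' hb hsb' hsb]
          exact h2
        · push Not at h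
          obtain ⟨y, h1, h3⟩ := hN.nbr
          rw [← hR.s_eq] at h1 h3
          exact ⟨y, h1, h3, fun b hb hsb => absurd hsb (h b hb)⟩
      have hA0 : A yo s ≠ 0 := by
        intro h
        rw [h] at hyo1
        norm_num at hyo1
      have hA0' : A s yo ≠ 0 := by rw [hS.symm.apply]; exact hA0
      have hnear := hN.near yo (by rw [← hR.s_eq]; exact hyos) (by rw [← hR.s_eq]; exact hA0')
      -- a block of `σ` whose inner block touches `s` does not contain `yo`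
      have htouch : ∀ b ∈ σ, ∀ x ∈ S.qi b, A x s ≠ 0 → yo ∉ S.Q b := fun b hb x hx hAx =>
        hyo2 b hb (nb_mem hS hx hAx)
      have hyoF : yo ∉ Fz S σ σA s := by
        intro h
        obtain ⟨b, hb, hyb⟩ := hF.cov yo h
        exact htouch b hb yo (FbR_sub_qi S σA s b hyb) hA0 (FbR_sub_Q S σA s b hyb)
      have hyoL : yo ∈ Lm S b0 σ σA s := mem_Lm.mpr ⟨hyos, Q0_sub_Reg hnear.1, hyoF⟩
      refine hypG_free hSet hF hus0 hyoL hyo1 (fun y hys hAy => ?_) hGam1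
      by_cases hyF : y ∈ Fz S σ σA s
      · obtain ⟨b, hb, hyb⟩ := hF.cov y hyF
        refine Or.inr ⟨b, hb, hyb, fun x hx => ?_⟩
        by_contra hxs
        have h1 := htouch b hb x (FbR_sub_qi S σA s b hx) hxs
        exact h1 (nb_mem hS (FbR_sub_qi S σA s b hyb) (by rw [hS.symm.apply]; exact hAy))
      · exact Or.inl (mem_Lm.mpr ⟨hys, Q0_sub_Reg (hnear.2 y hAy), hyF⟩)
  · intro x hx
    refine hypF_of hSet hF hus0 (fun b hb h => hx (Q_sub_Reg hb (FbR_sub_Q S σA s b h))) ?_ hF.cl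
    have h1 : ((Fz S σ σA s).card : ℝ) * (Γ0 * α) ^ 2 ≤
        (((Fz S σ σA s).card : ℝ) + 1) ^ 2 * (108 * (Γ0 ^ 4 * α ^ 6)) ^ 2 := by
      apply mul_le_mul
      · nlinarith
      · nlinarith
      · positivity
      · positivity
    calc _ ≤ _ := h1
      _ = GamR α Γ0 (Fz S σ σA s).card ^ 2 := by unfold GamR; ring

/-- monotonicity in the constant -/
theorem HypG_mono {v : ι → ℂ} {Lam Fz : Finset ι} {Γ Γ' : ℝ} (h : HypG A v Lam Fz s Γ us)
    (hΓ : Γ ≤ Γ') : HypG A v Lam Fz s Γ' us := fun y hy z hz => (h y hy z hz).trans hΓ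

theorem HypF_mono {c : ℝ} {v : ι → ℂ} {Lam Fz : Finset ι} {x : ι} {Γ Γ' : ℝ}
    (h : HypF c a A v Lam Fz s x Γ us) (h0 : 0 ≤ Γ) (hΓ : Γ ≤ Γ') :
    HypF c a A v Lam Fz s x Γ' us := by
  intro V hV
  refine (h V hV).trans (mul_le_mul_of_nonneg_right (pow_le_pow_left₀ h0 hΓ 2)
    (sum_nonneg fun _ _ => by positivity))

end reg

section hyp

variable {κ' : Type*} [Fintype κ'] {S : Sys ι 𝔅} {A : Matrix ι ι ℝ} {α a : ℝ} {CI NI glo : ℕ → ℝ}
  {m : ℕ} {ξ : κ' → ι → ℝ} {good : Finset ι} {bs : ι → 𝔅} {j0 j1 l0 : ℝ} {s : ι}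

/-- **HypGF, general form.** -/
theorem hypGF_gen (hS : Good S A) (hQ : Quant S A α CI NI glo) (hgeo : Geo S m ξ good bs j0 j1 l0)
    (hs : s ∈ good) (hN : Nb S A (bs s)) (ha : 0 < a) (ha2 : a ≤ 1 / 2)
    {σ σC σA : Finset 𝔅} {e l Γ0 Γ : ℝ}
    (hdj : ∀ b ∈ σ, ∀ b' ∈ σ, b ≠ b' → Disjoint (S.Q b) (S.Q b')) (hC : σC ⊆ σ) (hA : σA ⊆ σC)
    (hsA : ∀ b ∈ σA, s ≠ S.w b) (hsC : ∀ b ∈ σC, s ∉ S.inn b)
    (hga : ∀ b ∈ σ, s ∈ S.inn b → e ∈ Set.Icc (S.lo b s) (S.hi b s) ∧ l ≤ 1)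
    (hde : ∀ b ∈ σ, s = S.w b → b ∈ σC ∧ |e| = S.c)
    (hΓ0 : ∀ b ∈ σ, Gb α (CI (S.cls b)) (NI (S.cls b)) (glo (S.cls b)) S.r ≤ Γ0) (hΓ1 : 1 ≤ Γ0)
    (hΓ : GamR α Γ0 (Fz S σ σA s).card ≤ Γ) :
    HypGF S A m a ξ (bs s) σ σC σA s e l Γ := by
  intro V hV Ac0 hAc0 t ht
  have hRD : RD S (bs s) σ σC σA (CX S m (Reg S (bs s) σ) V) Ac0 s V := by
    refine ⟨(hgeo.bs_w s hs).symm, hdj, hA, hC, fun b hb => ?_, hAc0, fun b hb x hx hxs => ?_,
      hsA, hsC⟩
    · unfold CX at hb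
      exact (mem_filter.mp hb).2
    · exact hV b hb x (S.inn_sub hx) ((S.mem_inn).mp hx).1 hxs
  have hCX : CX S m (Reg S (bs s) σ) V ⊆ S.Comp V := by
    intro b hb
    unfold CX CC at hb
    exact (mem_filter.mp (mem_filter.mp hb).1).1
  set us : ℂ := (e : ℂ) - ((t + a : ℝ) : ℂ) * Complex.I with hus
  have him : us.im = -(t + a) := by simp [hus]
  have hre : us.re = e := by simp [hus]
  have ht0 := ht.1
  have ht1 := ht.2
  obtain ⟨h1, h2⟩ := hyp_reg hS hQ hN hRD hCX ha ha2 hΓ0 hΓ1 (us := us)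
    (by rw [him]; linarith)
    (fun b hb hsb => by
      have := (hga b hb hsb).2
      rw [him]; linarith)
    (fun b hb hsb => by rw [hre]; exact (hga b hb hsb).1)
    (fun b hb hsb => by rw [hre]; exact ⟨(hde b hb hsb).1, (hde b hb hsb).2, hQ.et_small b⟩)
  have hG0 : 0 ≤ GamR α Γ0 (Fz S σ σA s).card := by
    have := hQ.one_α
    unfold GamR
    positivity
  exact ⟨HypG_mono h1 hΓ, fun x hx => HypF_mono (h2 x hx) hG0 hΓ⟩

/-- case `h1` of the splitting -/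
theorem hypGF_h1 (hS : Good S A) (hQ : Quant S A α CI NI glo) (hgeo : Geo S m ξ good bs j0 j1 l0)
    (hs : s ∈ good) (hN : Nb S A (bs s)) (ha : 0 < a) (ha2 : a ≤ 1 / 2)
    {σ σA : Finset 𝔅} {e l Γ0 Γ : ℝ} (hσ : σ ∈ Adm S m (bs s)) (hA : σA ⊆ σ)
    (hsA : ∀ b ∈ σA, s ≠ S.w b) (hsw : ∀ b ∈ σ, s ∈ S.Q b → s = S.w b) (he : e = S.c ∨ e = -S.c)
    (hΓ0 : ∀ b ∈ σ, Gb α (CI (S.cls b)) (NI (S.cls b)) (glo (S.cls b)) S.r ≤ Γ0) (hΓ1 : 1 ≤ Γ0)
    (hΓ : GamR α Γ0 (Fz S σ σA s).card ≤ Γ) :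
    HypGF S A m a ξ (bs s) σ σ σA s e l Γ := by
  unfold Adm at hσ
  obtain ⟨_, _, _, hdj⟩ := mem_filter.mp hσ
  have hinn : ∀ b ∈ σ, s ∉ S.inn b := fun b hb h =>
    ((S.mem_inn).mp h).1 (hsw b hb (S.inn_sub h))
  refine hypGF_gen hS hQ hgeo hs hN ha ha2 hdj subset_rfl hA hsA hinn
    (fun b hb h => absurd h (hinn b hb)) (fun b hb _ => ⟨hb, ?_⟩) hΓ0 hΓ1 hΓ
  rcases he with h | h
  · rw [h, abs_of_pos S.c_pos]
  · rw [h, abs_neg, abs_of_pos S.c_pos]

/-- case `h2` of the splitting -/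
theorem hypGF_h2 (hS : Good S A) (hQ : Quant S A α CI NI glo) (hgeo : Geo S m ξ good bs j0 j1 l0)
    (hs : s ∈ good) (hN : Nb S A (bs s)) (ha : 0 < a) (ha2 : a ≤ 1 / 2)
    {σ σA : Finset 𝔅} {e Γ0 Γ : ℝ} (hσ : σ ∈ Adm S m (bs s)) {b : 𝔅} (hb : b ∈ σ)
    (hsb : s ∈ S.Q b) (hsw : s ≠ S.w b) (hA : σA ⊆ σ.erase b)
    (he : e = S.lo b s ∨ e = S.hi b s)
    (hΓ0 : ∀ b ∈ σ, Gb α (CI (S.cls b)) (NI (S.cls b)) (glo (S.cls b)) S.r ≤ Γ0) (hΓ1 : 1 ≤ Γ0)
    (hΓ : GamR α Γ0 (Fz S σ σA s).card ≤ Γ) :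
    HypGF S A m a ξ (bs s) σ (σ.erase b) σA s e (S.hi b s - S.lo b s) Γ := by
  unfold Adm at hσ
  obtain ⟨_, _, _, hdj⟩ := mem_filter.mp hσ
  have huniq : ∀ b' ∈ σ, s ∈ S.Q b' → b' = b := by
    intro b' hb' hs'
    by_contra hne
    exact Finset.disjoint_left.mp (hdj b' hb' b hb hne) hs' hsb
  refine hypGF_gen hS hQ hgeo hs hN ha ha2 hdj (erase_subset _ _) hA (fun b' hb' h => ?_)
    (fun b' hb' h => ?_) (fun b' hb' h => ?_) (fun b' hb' h => ?_) hΓ0 hΓ1 hΓ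
  · have h1 := mem_erase.mp (hA hb')
    exact h1.1 (huniq b' h1.2 (by rw [h]; exact S.w_mem b'))
  · have h1 := mem_erase.mp hb'
    exact h1.1 (huniq b' h1.2 (S.inn_sub h))
  · have h1 := huniq b' hb' (S.inn_sub h)
    subst h1
    refine ⟨?_, hQ.win_le b' s h⟩
    have := S.lo_lt b' s
    rcases he with h | h <;> rw [h]
    · exact ⟨le_refl _, this.le⟩
    · exact ⟨this.le, le_refl _⟩
  · have h1 := huniq b' hb' (by rw [h]; exact S.w_mem b')
    rw [h1] at h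
    exact absurd h hsw

/-- case `h3` of the splitting -/
theorem hypGF_h3 (hS : Good S A) (hQ : Quant S A α CI NI glo) (hgeo : Geo S m ξ good bs j0 j1 l0)
    (hs : s ∈ good) (hN : Nb S A (bs s)) (ha : 0 < a) (ha2 : a ≤ 1 / 2)
    {σ σA : Finset 𝔅} {e l Γ0 Γ : ℝ} (hσ : σ ∈ Adm S m (bs s)) {b : 𝔅} (hb : b ∈ σ)
    (hsb : s ∈ S.L b) (hA : σA ⊆ σ)
    (hΓ0 : ∀ b ∈ σ, Gb α (CI (S.cls b)) (NI (S.cls b)) (glo (S.cls b)) S.r ≤ Γ0) (hΓ1 : 1 ≤ Γ0)
    (hΓ : GamR α Γ0 (Fz S σ σA s).card ≤ Γ) :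
    HypGF S A m a ξ (bs s) σ σ σA s e l Γ := by
  unfold Adm at hσ
  obtain ⟨_, _, _, hdj⟩ := mem_filter.mp hσ
  have hsQ := S.L_sub b hsb
  have huniq : ∀ b' ∈ σ, s ∈ S.Q b' → b' = b := by
    intro b' hb' hs'
    by_contra hne
    exact Finset.disjoint_left.mp (hdj b' hb' b hb hne) hs' hsQ
  have hw : ∀ b' ∈ σ, s ≠ S.w b' := by
    intro b' hb' h
    have h1 := huniq b' hb' (by rw [h]; exact S.w_mem b')
    rw [h1] at h
    rw [h] at hsb
    exact S.w_not b hsb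
  have hinn : ∀ b' ∈ σ, s ∉ S.inn b' := by
    intro b' hb' h
    have h1 := huniq b' hb' (S.inn_sub h)
    rw [h1] at h
    exact ((S.mem_inn).mp h).2.2 hsb
  exact hypGF_gen hS hQ hgeo hs hN ha ha2 hdj subset_rfl hA (fun b' hb' => hw b' (hA hb')) hinn
    (fun b' hb' h => absurd h (hinn b' hb')) (fun b' hb' h => absurd h (hw b' hb')) hΓ0 hΓ1 hΓ

/-- case `σ = ∅` -/
theorem hypGF_empty (hS : Good S A) (hQ : Quant S A α CI NI glo)
    (hgeo : Geo S m ξ good bs j0 j1 l0) (hs : s ∈ good) (hN : Nb S A (bs s)) (ha : 0 < a)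
    (ha2 : a ≤ 1 / 2) {e l Γ : ℝ} (hΓ : 108 * α ^ 6 ≤ Γ) :
    HypGF S A m a ξ (bs s) ∅ ∅ ∅ s e l Γ := by
  refine hypGF_gen (Γ0 := 1) hS hQ hgeo hs hN ha ha2 (by simp) subset_rfl subset_rfl (by simp)
    (by simp) (by simp) (by simp) (by simp) le_rfl ?_
  unfold GamR Fz
  simpa using hΓ

end hyp

end Pool.Agent.Lib.MP_562b47_mp.LG
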