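import Pool.Agent.Lib.MP_562b47_mp.AL.Ward
import Pool.Agent.Lib.MP_562b47_mp.WO.Defs

/-!
MP_562b47, d = 2, weak Lemma H', module L9: a priori estimates on frozen blocks.
`EstB A v F Γ`: every `f` with `|(H_FF f)_x| ≤ m` on `F` satisfies `|f| ≤ Γ m` on `F`.
-/

open Matrix Finset

namespace Pool.Agent.Lib.MP_562b47_mp.LG

open Pool.Agent.Lib.MP_562b47_mp.AL Pool.Agent.Lib.MP_562b47_mp.WO

set_option linter.unusedSectionVars false

variable {ι : Type*} [Fintype ι] [DecidableEq ι]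

/-- a priori estimate (maximum norms) for the restriction of `A + diag v` to `F` -/
def EstB (A : Matrix ι ι ℝ) (v : ι → ℂ) (F : Finset ι) (Γ : ℝ) : Prop :=
  ∀ (f : ι → ℂ) (m : ℝ), (∀ x ∈ F, ‖∑ y ∈ F, HM A v x y * f y‖ ≤ m) →
    ∀ x ∈ F, ‖f x‖ ≤ Γ * m

theorem EstB.mono {A : Matrix ι ι ℝ} {v : ι → ℂ} {F : Finset ι} {Γ Γ' : ℝ}
    (h : EstB A v F Γ) (hΓ : Γ ≤ Γ') : EstB A v F Γ' := by
  intro f m hm x hx
  have h0 : 0 ≤ m := (norm_nonneg _).trans (hm x hx)
  exact (h f m hm x hx).trans (mul_le_mul_of_nonneg_right hΓ h0)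

theorem EstB.congr {A : Matrix ι ι ℝ} {v v' : ι → ℂ} {F : Finset ι} {Γ : ℝ}
    (h : EstB A v F Γ) (hv : ∀ x ∈ F, v' x = v x) : EstB A v' F Γ := by
  intro f m hm x hx
  refine h f m (fun x hx => ?_) x hx
  have : ∑ y ∈ F, HM A v x y * f y = ∑ y ∈ F, HM A v' x y * f y := by
    refine sum_congr rfl fun y _ => ?_
    rw [HM_apply, HM_apply, hv x hx]
  rw [this]
  exact hm x hx

/-- energy identity on a block -/
theorem energy_eq {A : Matrix ι ι ℝ} (hA : A.IsSymm) (v : ι → ℂ) (F : Finset ι) (f : ι → ℂ) :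
    ∑ x ∈ F, gam v x * ‖f x‖ ^ 2 =
      -(∑ x ∈ F, (starRingEnd ℂ) (f x) * ∑ y ∈ F, HM A v x y * f y).im := by
  have h := HM_form hA v (fun x => if x ∈ F then f x else 0)
  have h1 : (∑ x, (starRingEnd ℂ) (if x ∈ F then f x else 0) *
      ∑ y, HM A v x y * (if y ∈ F then f y else 0)) =
      ∑ x ∈ F, (starRingEnd ℂ) (f x) * ∑ y ∈ F, HM A v x y * f y := by
    have h2 : ∀ x, (∑ y, HM A v x y * (if y ∈ F then f y else 0)) = ∑ y ∈ F, HM A v x y * f y := by
      intro x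
      simp [mul_ite, Finset.sum_ite_mem]
    simp_rw [h2]
    have h3 : ∀ x, (starRingEnd ℂ) (if x ∈ F then f x else 0) * (∑ y ∈ F, HM A v x y * f y) =
        if x ∈ F then (starRingEnd ℂ) (f x) * (∑ y ∈ F, HM A v x y * f y) else 0 := by
      intro x
      by_cases hx : x ∈ F <;> simp [hx]
    simp_rw [h3]
    simp [Finset.sum_ite_mem]
  have h4 : (∑ x, gam v x * ‖if x ∈ F then f x else 0‖ ^ 2) = ∑ x ∈ F, gam v x * ‖f x‖ ^ 2 := by
    have h5 : ∀ x, gam v x * ‖if x ∈ F then f x else 0‖ ^ 2 =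
        if x ∈ F then gam v x * ‖f x‖ ^ 2 else 0 := by
      intro x
      by_cases hx : x ∈ F <;> simp [hx]
    simp_rw [h5]
    simp [Finset.sum_ite_mem]
  rw [h1, h4] at h
  linarith

/-- energy bound on a block -/
theorem energy_le {A : Matrix ι ι ℝ} (hA : A.IsSymm) (v : ι → ℂ) (F : Finset ι) (f : ι → ℂ)
    {m R : ℝ} (hm : ∀ x ∈ F, ‖∑ y ∈ F, HM A v x y * f y‖ ≤ m) (hR : ∀ x ∈ F, ‖f x‖ ≤ R) :
    ∑ x ∈ F, gam v x * ‖f x‖ ^ 2 ≤ F.card * (R * m) := by
  rw [energy_eq hA]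
  have h1 : ‖∑ x ∈ F, (starRingEnd ℂ) (f x) * ∑ y ∈ F, HM A v x y * f y‖ ≤ F.card * (R * m) := by
    refine (norm_sum_le _ _).trans ?_
    rw [← nsmul_eq_mul, ← Finset.sum_const]
    refine sum_le_sum fun x hx => ?_
    rw [norm_mul, RCLike.norm_conj]
    exact mul_le_mul (hR x hx) (hm x hx) (norm_nonneg _) ((norm_nonneg _).trans (hR x hx))
  exact (neg_le_abs _).trans ((Complex.abs_im_le_norm _).trans h1)

/-- the inverse `RS` of the block -/
theorem RS_mul {A : Matrix ι ι ℝ} {I : Finset ι} {V : ι → ℝ} (hdet : (HS A I V).det ≠ 0)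
    {x z : ι} (hx : x ∈ I) (hz : z ∈ I) :
    ∑ y ∈ I, RS A I V x y * (A y z + if y = z then V y else 0) = if x = z then 1 else 0 := by
  have h1 : (HS A I V)⁻¹ * HS A I V = 1 := nonsing_inv_mul _ (isUnit_iff_ne_zero.mpr hdet)
  have h2 := congrFun (congrFun h1 ⟨x, hx⟩) ⟨z, hz⟩
  rw [Matrix.mul_apply, Matrix.one_apply] at h2
  rw [← Finset.sum_coe_sort I]
  have h3 : ∀ y : I, RS A I V x y * (A y z + if (y : ι) = z then V y else 0) =
      (HS A I V)⁻¹ ⟨x, hx⟩ y * HS A I V y ⟨z, hz⟩ := by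
    intro y
    have : (if (y : ι) = z then V y else 0) = (if y = (⟨z, hz⟩ : I) then V y else 0) := by
      by_cases h : (y : ι) = z
      · rw [if_pos h, if_pos (Subtype.ext h)]
      · rw [if_neg h, if_neg (fun h' => h (congrArg Subtype.val h'))]
    rw [RS, dif_pos hx, dif_pos y.2, HS, Matrix.of_apply, this]
  simp_rw [h3]
  rw [h2]
  by_cases h : x = z
  · subst h; simp
  · rw [if_neg h, if_neg (fun h' => h (congrArg Subtype.val h'))]

/-- reproducing formula on the inner block -/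
theorem RS_rep {A : Matrix ι ι ℝ} {I : Finset ι} {V : ι → ℝ} (hdet : (HS A I V).det ≠ 0)
    (f : ι → ℂ) {x : ι} (hx : x ∈ I) :
    f x = ∑ y ∈ I, (RS A I V x y : ℂ) *
      ∑ z ∈ I, ((A y z + if y = z then V y else 0 : ℝ) : ℂ) * f z := by
  simp_rw [mul_sum]
  rw [sum_comm]
  have h : ∀ z ∈ I, ∑ y ∈ I, (RS A I V x y : ℂ) *
      (((A y z + if y = z then V y else 0 : ℝ) : ℂ) * f z) = (if x = z then 1 else 0) * f z := by
    intro z hz
    have h1 := RS_mul (A := A) (V := V) hdet hx hz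
    have h2 : ((∑ y ∈ I, RS A I V x y * (A y z + if y = z then V y else 0) : ℝ) : ℂ) =
        if x = z then 1 else 0 := by rw [h1]; split_ifs <;> simp
    rw [← h2]
    push_cast
    rw [sum_mul]
    exact sum_congr rfl fun y _ => by ring
  rw [sum_congr rfl h]
  simp [hx]

/-- **inner block**: real symmetric block with bounded inverse, minus `i D`. -/
theorem est_inn {A : Matrix ι ι ℝ} (hA : A.IsSymm) {v : ι → ℂ} {I : Finset ι} {V : ι → ℝ}
    {K N : ℝ} (hdet : (HS A I V).det ≠ 0) (hre : ∀ x ∈ I, (v x).re = V x)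
    (h0 : ∀ x ∈ I, 0 ≤ gam v x) (h2 : ∀ x ∈ I, gam v x ≤ 2)
    (hK : ∀ x ∈ I, ∀ y ∈ I, |RS A I V x y| ≤ K) (hN : (I.card : ℝ) ≤ N) (hKN : 1 ≤ K * N)
    (hN0 : 0 < N) : EstB A v I (4 * (K * N) ^ 2) := by
  intro f m hm x₁ hx₁
  obtain ⟨x0, hx0, hmax⟩ := exists_max_image I (fun x => ‖f x‖) ⟨x₁, hx₁⟩
  refine (hmax x₁ hx₁).trans ?_
  set R := ‖f x0‖ with hR
  have hR0 : 0 ≤ R := norm_nonneg _
  have hm0 : 0 ≤ m := (norm_nonneg _).trans (hm x₁ hx₁)
  have hK0 : 0 < K := by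
    by_contra h
    have : K * N ≤ 0 := mul_nonpos_of_nonpos_of_nonneg (not_lt.mp h) hN0.le
    linarith
  have hE := energy_le hA v I f hm hmax
  -- sum of γ |f|
  have hS : ∑ y ∈ I, gam v y * ‖f y‖ ≤ N * Real.sqrt (2 * (R * m)) := by
    have hcs : (∑ y ∈ I, gam v y * ‖f y‖) ^ 2 ≤
        (∑ y ∈ I, gam v y) * ∑ y ∈ I, gam v y * ‖f y‖ ^ 2 := by
      have := Finset.sum_mul_sq_le_sq_mul_sq I (fun y => Real.sqrt (gam v y))
        (fun y => Real.sqrt (gam v y) * ‖f y‖)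
      have e1 : ∀ y ∈ I, Real.sqrt (gam v y) * (Real.sqrt (gam v y) * ‖f y‖) =
          gam v y * ‖f y‖ := fun y hy => by
        rw [← mul_assoc, Real.mul_self_sqrt (h0 y hy)]
      have e2 : ∀ y ∈ I, Real.sqrt (gam v y) ^ 2 = gam v y := fun y hy =>
        Real.sq_sqrt (h0 y hy)
      have e3 : ∀ y ∈ I, (Real.sqrt (gam v y) * ‖f y‖) ^ 2 = gam v y * ‖f y‖ ^ 2 := fun y hy => by
        rw [mul_pow, Real.sq_sqrt (h0 y hy)]
      rwa [sum_congr rfl e1, sum_congr rfl e2, sum_congr rfl e3] at this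
    have hg : ∑ y ∈ I, gam v y ≤ 2 * N := by
      calc ∑ y ∈ I, gam v y ≤ ∑ _y ∈ I, (2 : ℝ) := sum_le_sum h2
        _ = I.card * 2 := by rw [sum_const, nsmul_eq_mul]
        _ ≤ 2 * N := by linarith
    have hE' : ∑ y ∈ I, gam v y * ‖f y‖ ^ 2 ≤ N * (R * m) :=
      hE.trans (mul_le_mul_of_nonneg_right hN (mul_nonneg hR0 hm0))
    have h3 : (∑ y ∈ I, gam v y * ‖f y‖) ^ 2 ≤ (N * Real.sqrt (2 * (R * m))) ^ 2 := by
      rw [mul_pow, Real.sq_sqrt (by positivity)]
      calc _ ≤ _ := hcs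
        _ ≤ (2 * N) * (N * (R * m)) := mul_le_mul hg hE'
            (sum_nonneg fun y hy => mul_nonneg (h0 y hy) (by positivity)) (by positivity)
        _ = _ := by ring
    exact abs_le_of_sq_le_sq' h3 (by positivity) |>.2
  have hrep := RS_rep (A := A) (V := V) hdet f hx0
  have hb : R ≤ K * ∑ y ∈ I, (m + gam v y * ‖f y‖) := by
    rw [hR, hrep, mul_sum]
    refine (norm_sum_le _ _).trans (sum_le_sum fun y hy => ?_)
    rw [norm_mul, Complex.norm_real, Real.norm_eq_abs]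
    refine mul_le_mul (hK x0 hx0 y hy) ?_ (norm_nonneg _) hK0.le
    have e1 : ∑ z ∈ I, ((A y z + if y = z then V y else 0 : ℝ) : ℂ) * f z =
        (∑ z ∈ I, HM A v y z * f z) + (gam v y : ℂ) * Complex.I * f y := by
      have : ∀ z ∈ I, ((A y z + if y = z then V y else 0 : ℝ) : ℂ) * f z =
          HM A v y z * f z + (if y = z then (gam v y : ℂ) * Complex.I * f z else 0) := by
        intro z _
        rw [HM_apply]
        by_cases h : y = z
        · rw [if_pos h, if_pos h, if_pos h]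
          have hv : v y = (V y : ℂ) - (gam v y : ℂ) * Complex.I := by
            apply Complex.ext
            · simp [hre y hy]
            · simp [gam]
          rw [hv]
          push_cast
          ring
        · rw [if_neg h, if_neg h, if_neg h]
          push_cast
          ring
      rw [sum_congr rfl this, sum_add_distrib]
      simp [hy]
    rw [e1]
    refine (norm_add_le _ _).trans (add_le_add (hm y hy) ?_)
    rw [norm_mul, norm_mul, Complex.norm_real, Complex.norm_I, mul_one, Real.norm_eq_abs,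
      abs_of_nonneg (h0 y hy)]
  rw [sum_add_distrib, sum_const, nsmul_eq_mul] at hb
  have hb2 : R ≤ K * (N * m + N * Real.sqrt (2 * (R * m))) := by
    refine hb.trans (mul_le_mul_of_nonneg_left ?_ hK0.le)
    exact add_le_add (mul_le_mul_of_nonneg_right hN hm0) hS
  set P := K * N with hP
  have hb3 : R ≤ P * m + P * Real.sqrt (2 * (R * m)) := by
    calc R ≤ _ := hb2
      _ = _ := by rw [hP]; ring
  -- AM-GM
  have hs : P * Real.sqrt (2 * (R * m)) ≤ R / 2 + P ^ 2 * m := by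
    have h4 : (P * Real.sqrt (2 * (R * m))) ^ 2 ≤ (R / 2 + P ^ 2 * m) ^ 2 := by
      rw [mul_pow, Real.sq_sqrt (by positivity)]
      nlinarith [sq_nonneg (R / 2 - P ^ 2 * m)]
    exact abs_le_of_sq_le_sq' h4 (by positivity) |>.2
  have hP2 : P * m ≤ P ^ 2 * m := mul_le_mul_of_nonneg_right (by nlinarith) hm0
  nlinarith

/-- splitting a row of the block -/
theorem row_insert {A : Matrix ι ι ℝ} {v : ι → ℂ} {I : Finset ι} {w : ι} (hw : w ∉ I) (f : ι → ℂ)
    {x : ι} (hx : x ∈ I) : ∑ y ∈ I, HM A v x y * f y =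
      (∑ y ∈ insert w I, HM A v x y * f y) - (A x w : ℂ) * f w := by
  have hne : x ≠ w := fun h => hw (h ▸ hx)
  rw [sum_insert hw, HM_apply A v x w, if_neg hne]
  ring

theorem abs_entry_le {A : Matrix ι ι ℝ} {α : ℝ} (hα : ∀ x, ∑ y, |A x y| ≤ α) (x y : ι) :
    |A x y| ≤ α :=
  (Finset.single_le_sum (f := fun y => |A x y|) (fun _ _ => abs_nonneg _) (mem_univ y)).trans (hα x)

/-- **active centre** (or any strictly absorbing centre). -/
theorem est_act {A : Matrix ι ι ℝ} (hA : A.IsSymm) {v : ι → ℂ} {I : Finset ι} {w : ι}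
    {α P0 g N : ℝ} (hw : w ∉ I) (hα : ∀ x, ∑ y, |A x y| ≤ α) (hα1 : 1 ≤ α)
    (h0 : ∀ x ∈ I, 0 ≤ gam v x) (hg : 0 < g) (hgw : g ≤ gam v w) (hE : EstB A v I P0)
    (hP0 : 1 ≤ P0) (hN : (I.card : ℝ) + 1 ≤ N) (hgN : g ≤ N) :
    EstB A v (insert w I) (3 * (P0 * α + 1) ^ 2 * N / g) := by
  intro f m hm x₁ hx₁
  obtain ⟨x0, hx0, hmax⟩ := exists_max_image (insert w I) (fun x => ‖f x‖) ⟨x₁, hx₁⟩
  refine (hmax x₁ hx₁).trans ?_
  have hm0 : 0 ≤ m := (norm_nonneg _).trans (hm x₁ hx₁)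
  set t := ‖f w‖ with ht
  have ht0 : 0 ≤ t := norm_nonneg _
  set P := P0 * α + 1 with hP
  have hP1 : 1 ≤ P := by nlinarith
  have hI : ∀ x ∈ I, ‖f x‖ ≤ P0 * (m + α * t) := by
    refine hE f (m + α * t) fun x hx => ?_
    rw [row_insert hw f hx]
    refine (norm_sub_le _ _).trans (add_le_add (hm x (mem_insert_of_mem hx)) ?_)
    rw [norm_mul, Complex.norm_real, Real.norm_eq_abs]
    exact mul_le_mul_of_nonneg_right (abs_entry_le hα x w) ht0
  have hR : ‖f x0‖ ≤ P * (m + t) := by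
    rcases mem_insert.mp hx0 with h | h
    · rw [h]; nlinarith
    · refine (hI x0 h).trans ?_
      have : 0 ≤ P0 * m * (α - 1) := by
        apply mul_nonneg (mul_nonneg (by linarith) hm0); linarith
      rw [hP]; nlinarith
  have hEn := energy_le hA v (insert w I) f hm hmax
  have h1 : g * t ^ 2 ≤ N * (P * (m + t) * m) := by
    have h2 : gam v w * t ^ 2 ≤ ∑ x ∈ insert w I, gam v x * ‖f x‖ ^ 2 := by
      refine Finset.single_le_sum (f := fun x => gam v x * ‖f x‖ ^ 2) (fun x hx => ?_)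
        (mem_insert_self w I)
      rcases mem_insert.mp hx with h | h
      · rw [h]; exact mul_nonneg (hg.le.trans hgw) (by positivity)
      · exact mul_nonneg (h0 x h) (by positivity)
    have h3 : ((insert w I).card : ℝ) ≤ N := by
      rw [card_insert_of_notMem hw]; push_cast; exact hN
    calc g * t ^ 2 ≤ gam v w * t ^ 2 := mul_le_mul_of_nonneg_right hgw (by positivity)
      _ ≤ _ := h2
      _ ≤ _ := hEn
      _ ≤ N * (P * (m + t) * m) :=
          mul_le_mul h3 (mul_le_mul_of_nonneg_right hR hm0) (mul_nonneg (norm_nonneg _) hm0)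
            (by linarith)
  set Q := N * P / g with hQ
  have hN0 : 0 < N := hg.trans_le hgN
  have hQ1 : 1 ≤ Q := by
    rw [hQ, le_div_iff₀ hg]; nlinarith
  have h4 : t ^ 2 ≤ Q * (m + t) * m := by
    have : t ^ 2 = g * t ^ 2 / g := by field_simp
    rw [this, div_le_iff₀ hg]
    calc g * t ^ 2 ≤ _ := h1
      _ = Q * (m + t) * m * g := by rw [hQ]; field_simp
  have ht2 : t ≤ 2 * Q * m := by
    by_contra h
    rw [not_le] at h
    have h5 : 0 < t := lt_of_le_of_lt (by positivity) h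
    have h6 : Q * m * t ≤ t / 2 * t := mul_le_mul_of_nonneg_right (by linarith) ht0
    have h7 : Q * m * m ≤ t / 2 * (t / 2) := by
      refine mul_le_mul (by linarith) ?_ hm0 (by positivity)
      nlinarith
    nlinarith
  calc ‖f x0‖ ≤ P * (m + t) := hR
    _ ≤ P * (m + 2 * Q * m) := by
        apply mul_le_mul_of_nonneg_left _ (by linarith); linarith
    _ ≤ 3 * P * Q * m := by nlinarith [mul_nonneg (mul_nonneg (show (0:ℝ) ≤ P by linarith)
        (show (0:ℝ) ≤ Q - 1 by linarith)) hm0]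
    _ = 3 * P ^ 2 * N / g * m := by rw [hQ]; ring

/-- **non-resonant centre**: `|v_w - ze| ≥ ρ`, small absorption in the inner block. -/
theorem est_res {A : Matrix ι ι ℝ} (hA : A.IsSymm) {v : ι → ℂ} {I : Finset ι} {V : ι → ℝ} {w : ι}
    {α K N P0 δ ρ : ℝ} {ze : ℝ} (hw : w ∉ I) (hα : ∀ x, ∑ y, |A x y| ≤ α) (hα1 : 1 ≤ α)
    (hdet : (HS A I V).det ≠ 0) (hre : ∀ x ∈ I, (v x).re = V x)
    (h0 : ∀ x ∈ I, 0 ≤ gam v x) (hδ : ∀ x ∈ I, gam v x ≤ δ)
    (hK : ∀ x ∈ I, ∀ y ∈ I, |RS A I V x y| ≤ K) (hN : (I.card : ℝ) ≤ N)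
    (hK0 : 0 ≤ K) (hN0 : 0 ≤ N) (hE : EstB A v I P0) (hP0 : 1 ≤ P0)
    (hze : ze = -(A w w) + ∑ y, ∑ y', A w y * RS A I V y y' * A y' w)
    (hρ0 : 0 < ρ) (hρ : ρ ≤ ‖v w - (ze : ℂ)‖) (hδP : δ * P0 ≤ 1) (hδ0 : 0 ≤ δ)
    (hsm : α ^ 2 * (K * N) * δ * P0 ≤ ρ / 2) :
    EstB A v (insert w I) ((2 / ρ * (1 + 2 * (α * (K * N)))) + P0 * (1 + α *
      (2 / ρ * (1 + 2 * (α * (K * N)))))) := by
  intro f m hm x₁ hx₁
  have hm0 : 0 ≤ m := (norm_nonneg _).trans (hm x₁ hx₁)
  set t := ‖f w‖ with ht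
  have ht0 : 0 ≤ t := norm_nonneg _
  have hI : ∀ x ∈ I, ‖f x‖ ≤ P0 * (m + α * t) := by
    refine hE f (m + α * t) fun x hx => ?_
    rw [row_insert hw f hx]
    refine (norm_sub_le _ _).trans (add_le_add (hm x (mem_insert_of_mem hx)) ?_)
    rw [norm_mul, Complex.norm_real, Real.norm_eq_abs]
    exact mul_le_mul_of_nonneg_right (abs_entry_le hα x w) ht0
  -- rows
  set h : ι → ℂ := fun x => ∑ y ∈ insert w I, HM A v x y * f y with hh
  have hrow : ∀ z ∈ I, ∑ y ∈ I, ((A z y + if z = y then V z else 0 : ℝ) : ℂ) * f y =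
      h z - (A z w : ℂ) * f w + (gam v z : ℂ) * Complex.I * f z := by
    intro z hz
    have e1 : ∀ y ∈ I, ((A z y + if z = y then V z else 0 : ℝ) : ℂ) * f y =
        HM A v z y * f y + (if z = y then (gam v z : ℂ) * Complex.I * f y else 0) := by
      intro y _
      rw [HM_apply]
      by_cases hzy : z = y
      · rw [if_pos hzy, if_pos hzy, if_pos hzy]
        have hv : v z = (V z : ℂ) - (gam v z : ℂ) * Complex.I := by
          apply Complex.ext
          · simp [hre z hz]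
          · simp [gam]
        rw [hv]
        push_cast
        ring
      · rw [if_neg hzy, if_neg hzy, if_neg hzy]
        push_cast
        ring
    rw [sum_congr rfl e1, sum_add_distrib, row_insert hw f hz]
    simp [hz, hh]
  have hrep : ∀ y ∈ I, f y = ∑ z ∈ I, (RS A I V y z : ℂ) *
      (h z - (A z w : ℂ) * f w + (gam v z : ℂ) * Complex.I * f z) := by
    intro y hy
    rw [RS_rep (A := A) (V := V) hdet f hy]
    exact sum_congr rfl fun z hz => by rw [hrow z hz]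
  have hw1 : h w = (∑ y ∈ I, (A w y : ℂ) * f y) + ((A w w : ℂ) + v w) * f w := by
    rw [hh]
    simp only
    rw [sum_insert hw, HM_apply, if_pos rfl, add_comm]
    congr 1
    refine sum_congr rfl fun y hy => ?_
    have hne : w ≠ y := fun h => hw (h ▸ hy)
    rw [HM_apply, if_neg hne, add_zero]
  have hzeI : (ze : ℂ) = -(A w w : ℂ) +
      ∑ y ∈ I, ∑ z ∈ I, (A w y : ℂ) * (RS A I V y z : ℂ) * (A z w : ℂ) := by
    have e1 : ∑ y, ∑ y', A w y * RS A I V y y' * A y' w =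
        ∑ y ∈ I, ∑ z ∈ I, A w y * RS A I V y z * A z w := by
      symm
      have : ∀ y, y ∉ I → ∑ y', A w y * RS A I V y y' * A y' w = 0 := by
        intro y hy
        refine sum_eq_zero fun z _ => ?_
        rw [RS, dif_neg hy]; ring
      rw [← Finset.sum_subset (subset_univ I) (fun y _ hy => this y hy)]
      refine sum_congr rfl fun y hy => ?_
      refine Finset.sum_subset (subset_univ I) (fun z _ hz => ?_)
      rw [RS, dif_pos hy, dif_neg hz]; ring
    rw [hze, e1]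
    push_cast
    rfl
  have hkey : (v w - (ze : ℂ)) * f w = h w - ∑ y ∈ I, (A w y : ℂ) *
      ∑ z ∈ I, (RS A I V y z : ℂ) * (h z + (gam v z : ℂ) * Complex.I * f z) := by
    have e2 : ∑ y ∈ I, (A w y : ℂ) * f y = (∑ y ∈ I, (A w y : ℂ) *
        ∑ z ∈ I, (RS A I V y z : ℂ) * (h z + (gam v z : ℂ) * Complex.I * f z)) -
        (∑ y ∈ I, ∑ z ∈ I, (A w y : ℂ) * (RS A I V y z : ℂ) * (A z w : ℂ)) * f w := by
      rw [sum_mul, ← sum_sub_distrib]
      refine sum_congr rfl fun y hy => ?_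
      rw [sum_mul, mul_sum, ← sum_sub_distrib]
      conv_lhs => rw [hrep y hy, mul_sum]
      exact sum_congr rfl fun z _ => by ring
    have e3 : (v w - (ze : ℂ)) * f w = (A w w : ℂ) * f w + v w * f w -
        (∑ y ∈ I, ∑ z ∈ I, (A w y : ℂ) * (RS A I V y z : ℂ) * (A z w : ℂ)) * f w := by
      rw [hzeI]; ring
    rw [e3, hw1, e2]
    ring
  have hrowsum : ∀ (F : ι → ℝ) (M : ℝ), 0 ≤ M → (∀ y ∈ I, F y ≤ M) →
      ∑ y ∈ I, |A w y| * F y ≤ α * M := by
    intro F M hM hF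
    calc ∑ y ∈ I, |A w y| * F y ≤ ∑ y ∈ I, |A w y| * M :=
          sum_le_sum fun y hy => mul_le_mul_of_nonneg_left (hF y hy) (abs_nonneg _)
      _ = (∑ y ∈ I, |A w y|) * M := by rw [sum_mul]
      _ ≤ (∑ y, |A w y|) * M := mul_le_mul_of_nonneg_right
          (Finset.sum_le_sum_of_subset_of_nonneg (subset_univ I) fun _ _ _ => abs_nonneg _) hM
      _ ≤ α * M := mul_le_mul_of_nonneg_right (hα w) hM
  set B := m + δ * (P0 * (m + α * t)) with hB
  have hB0 : 0 ≤ B := by positivity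
  have hinner : ∀ y ∈ I, ‖∑ z ∈ I, (RS A I V y z : ℂ) *
      (h z + (gam v z : ℂ) * Complex.I * f z)‖ ≤ K * N * B := by
    intro y hy
    refine (norm_sum_le _ _).trans ?_
    calc ∑ z ∈ I, ‖(RS A I V y z : ℂ) * (h z + (gam v z : ℂ) * Complex.I * f z)‖
        ≤ ∑ _z ∈ I, K * B := by
          refine sum_le_sum fun z hz => ?_
          rw [norm_mul, Complex.norm_real, Real.norm_eq_abs]
          refine mul_le_mul (hK y hy z hz) ?_ (norm_nonneg _) hK0
          refine (norm_add_le _ _).trans (add_le_add (hm z (mem_insert_of_mem hz)) ?_)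
          rw [norm_mul, norm_mul, Complex.norm_real, Complex.norm_I, mul_one, Real.norm_eq_abs,
            abs_of_nonneg (h0 z hz)]
          exact mul_le_mul (hδ z hz) (hI z hz) (norm_nonneg _) hδ0
      _ = I.card * (K * B) := by rw [sum_const, nsmul_eq_mul]
      _ ≤ N * (K * B) := mul_le_mul_of_nonneg_right hN (mul_nonneg hK0 hB0)
      _ = K * N * B := by ring
  have hmain : ρ * t ≤ m + α * (K * N * B) := by
    calc ρ * t ≤ ‖v w - (ze : ℂ)‖ * ‖f w‖ := mul_le_mul_of_nonneg_right hρ ht0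
      _ = ‖h w - ∑ y ∈ I, (A w y : ℂ) * ∑ z ∈ I, (RS A I V y z : ℂ) *
          (h z + (gam v z : ℂ) * Complex.I * f z)‖ := by rw [← norm_mul, hkey]
      _ ≤ m + α * (K * N * B) := by
          refine (norm_sub_le _ _).trans (add_le_add (hm w (mem_insert_self w I)) ?_)
          refine (norm_sum_le _ _).trans ?_
          have := hrowsum (fun y => ‖∑ z ∈ I, (RS A I V y z : ℂ) *
            (h z + (gam v z : ℂ) * Complex.I * f z)‖) (K * N * B) (by positivity) hinner
          refine le_trans (sum_le_sum fun y _ => ?_) this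
          rw [norm_mul, Complex.norm_real, Real.norm_eq_abs]
  have hKN0 : 0 ≤ K * N := mul_nonneg hK0 hN0
  have ht1 : t ≤ 2 / ρ * (1 + 2 * (α * (K * N))) * m := by
    have e1 : α * (K * N * B) = α * (K * N) * m + α * (K * N) * (δ * P0) * m +
        α ^ 2 * (K * N) * δ * P0 * t := by rw [hB]; ring
    have e2 : α * (K * N) * (δ * P0) * m ≤ α * (K * N) * 1 * m := by
      apply mul_le_mul_of_nonneg_right _ hm0
      exact mul_le_mul_of_nonneg_left hδP (by positivity)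
    have e3 : α ^ 2 * (K * N) * δ * P0 * t ≤ ρ / 2 * t := mul_le_mul_of_nonneg_right hsm ht0
    have e4 : ρ / 2 * t ≤ (1 + 2 * (α * (K * N))) * m := by nlinarith
    have e5 : t = 2 / ρ * (ρ / 2 * t) := by field_simp
    calc t = 2 / ρ * (ρ / 2 * t) := e5
      _ ≤ 2 / ρ * ((1 + 2 * (α * (K * N))) * m) :=
          mul_le_mul_of_nonneg_left e4 (by positivity)
      _ = _ := by ring
  set T := 2 / ρ * (1 + 2 * (α * (K * N))) with hT
  have hT0 : 0 ≤ T := by positivity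
  rcases mem_insert.mp hx₁ with hx | hx
  · rw [hx]
    calc t ≤ T * m := ht1
      _ ≤ (T + P0 * (1 + α * T)) * m := by
          apply mul_le_mul_of_nonneg_right _ hm0
          have : 0 ≤ P0 * (1 + α * T) := by positivity
          linarith
  · calc ‖f x₁‖ ≤ P0 * (m + α * t) := hI x₁ hx
      _ ≤ P0 * (m + α * (T * m)) := by
          apply mul_le_mul_of_nonneg_left _ (by linarith)
          have := mul_le_mul_of_nonneg_left ht1 (show 0 ≤ α by linarith)
          linarith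
      _ = (0 + P0 * (1 + α * T)) * m := by ring
      _ ≤ (T + P0 * (1 + α * T)) * m := by
          apply mul_le_mul_of_nonneg_right _ hm0
          linarith

end Pool.Agent.Lib.MP_562b47_mp.LG
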