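import Pool.Agent.Lib.MP_562b47_mp.LG.Est
import Pool.Agent.Lib.MP_562b47_mp.LW.Defs

/-!
MP_562b47, d = 2, weak Lemma H', module L9: the hypotheses (G) and (F) of the local theorem from
a priori estimates on the frozen blocks.
-/

open Matrix Finset

namespace Pool.Agent.Lib.MP_562b47_mp.LG

open Pool.Agent.Lib.MP_562b47_mp.AL Pool.Agent.Lib.MP_562b47_mp.WO Pool.Agent.Lib.MP_562b47_mp.LW

set_option linter.unusedSectionVars false

variable {ι : Type*} [Fintype ι] [DecidableEq ι]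

/-- a priori estimate: everything on `B` is controlled by the rows of `B` and by the values on
`Λ` -/
def APri (A : Matrix ι ι ℝ) (v : ι → ℂ) (B Λ : Finset ι) (Γ : ℝ) : Prop :=
  ∀ (f : ι → ℂ) (m l : ℝ), 0 ≤ m → 0 ≤ l → (∀ x ∈ B, ‖∑ y, HM A v x y * f y‖ ≤ m) →
    (∀ x ∈ Λ, ‖f x‖ ≤ l) → ∀ x ∈ B, ‖f x‖ ≤ Γ * (m + l)

/-- a strictly absorbing `Λ` turns the a priori estimate into a bound of the Green function -/
theorem G_core {A : Matrix ι ι ℝ} (hA : A.IsSymm) {v : ι → ℂ} (hv : Loss v) {B Λ : Finset ι}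
    {τ Γ : ℝ} (_hΛ : Λ ⊆ B) (hτ : ∀ x ∈ Λ, τ ≤ gam v x) (hτ0 : 0 < τ) (hΓ : 1 ≤ Γ)
    (hB : APri A v B Λ Γ) : ∀ y ∈ B, ∀ z ∈ B, ‖GM A v y z‖ ≤ 2 * Γ + Γ ^ 2 / τ := by
  intro y hy z hz
  obtain ⟨x0, hx0, hmax⟩ := exists_max_image B (fun x => ‖GM A v x z‖) ⟨y, hy⟩
  refine (hmax y hy).trans ?_
  set R := ‖GM A v x0 z‖ with hR
  have hR0 : 0 ≤ R := norm_nonneg _
  have hg : ∀ x, 0 ≤ gam v x := fun x => by have := hv x; unfold gam; linarith
  have hW := (ward hA hv).im_diag z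
  have hzR : (GM A v z z).im ≤ R :=
    (le_abs_self _).trans ((Complex.abs_im_le_norm _).trans (hmax z hz))
  have hl : ∀ x ∈ Λ, ‖GM A v x z‖ ≤ Real.sqrt (R / τ) := by
    intro x hx
    apply Real.le_sqrt_of_sq_le
    rw [le_div_iff₀ hτ0]
    calc ‖GM A v x z‖ ^ 2 * τ ≤ gam v x * ‖GM A v x z‖ ^ 2 := by
          rw [mul_comm]; exact mul_le_mul_of_nonneg_right (hτ x hx) (by positivity)
      _ ≤ ∑ k, gam v k * ‖GM A v k z‖ ^ 2 :=
          Finset.single_le_sum (f := fun k => gam v k * ‖GM A v k z‖ ^ 2)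
            (fun k _ => mul_nonneg (hg k) (by positivity)) (mem_univ x)
      _ ≤ R := by rw [← hW]; exact hzR
  have hrow : ∀ x ∈ B, ‖∑ y, HM A v x y * GM A v y z‖ ≤ 1 := by
    intro x _
    have h1 := congrFun (congrFun (HM_mul_GM hA hv) x) z
    rw [Matrix.mul_apply, Matrix.one_apply] at h1
    rw [h1]
    split_ifs <;> simp
  have h2 := hB (fun x => GM A v x z) 1 (Real.sqrt (R / τ)) zero_le_one (Real.sqrt_nonneg _)
    hrow hl x0 hx0
  change R ≤ Γ * (1 + Real.sqrt (R / τ)) at h2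
  have h3 : Γ * Real.sqrt (R / τ) ≤ R / 2 + Γ ^ 2 / (2 * τ) := by
    have h4 : (Γ * Real.sqrt (R / τ)) ^ 2 ≤ (R / 2 + Γ ^ 2 / (2 * τ)) ^ 2 := by
      rw [mul_pow, Real.sq_sqrt (by positivity)]
      have : Γ ^ 2 * (R / τ) = 4 * (R / 2) * (Γ ^ 2 / (2 * τ)) := by field_simp; ring
      rw [this]
      nlinarith [sq_nonneg (R / 2 - Γ ^ 2 / (2 * τ))]
    exact abs_le_of_sq_le_sq' h4 (by positivity) |>.2
  have h5 : Γ ^ 2 / τ = 2 * (Γ ^ 2 / (2 * τ)) := by field_simp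
  rw [h5]
  linarith

/-- the part of a row outside a block -/
theorem row_block {A : Matrix ι ι ℝ} {v : ι → ℂ} {F : Finset ι} (f : ι → ℂ) {x : ι} (hx : x ∈ F) :
    ∑ y ∈ F, HM A v x y * f y = (∑ y, HM A v x y * f y) - ∑ y ∈ Fᶜ, (A x y : ℂ) * f y := by
  rw [← Finset.sum_add_sum_compl F]
  have : ∀ y ∈ Fᶜ, HM A v x y * f y = (A x y : ℂ) * f y := by
    intro y hy
    have hne : x ≠ y := fun h => (mem_compl.mp hy) (h ▸ hx)
    rw [HM_apply, if_neg hne, add_zero]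
  rw [sum_congr rfl this]
  ring

/-- bound of a piece of a row -/
theorem row_le {A : Matrix ι ι ℝ} {α : ℝ} (hα : ∀ x, ∑ y, |A x y| ≤ α) (x : ι) (T : Finset ι)
    (f : ι → ℂ) {M : ℝ} (hM : 0 ≤ M) (hf : ∀ y ∈ T, A x y ≠ 0 → ‖f y‖ ≤ M) :
    ‖∑ y ∈ T, (A x y : ℂ) * f y‖ ≤ α * M := by
  refine (norm_sum_le _ _).trans ?_
  calc ∑ y ∈ T, ‖(A x y : ℂ) * f y‖ ≤ ∑ y ∈ T, |A x y| * M := by
        refine sum_le_sum fun y hy => ?_
        rw [norm_mul, Complex.norm_real, Real.norm_eq_abs]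
        by_cases h : A x y = 0
        · rw [h]; simp
        · exact mul_le_mul_of_nonneg_left (hf y hy h) (abs_nonneg _)
    _ = (∑ y ∈ T, |A x y|) * M := by rw [sum_mul]
    _ ≤ (∑ y, |A x y|) * M := mul_le_mul_of_nonneg_right
        (Finset.sum_le_sum_of_subset_of_nonneg (subset_univ T) fun _ _ _ => abs_nonneg _) hM
    _ ≤ α * M := mul_le_mul_of_nonneg_right (hα x) hM

/-- one frozen block -/
theorem block_le {A : Matrix ι ι ℝ} {v : ι → ℂ} {F : Finset ι} {Γ α : ℝ}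
    (hα : ∀ x, ∑ y, |A x y| ≤ α) (hE : EstB A v F Γ) {f : ι → ℂ} {m M : ℝ} (hM : 0 ≤ M)
    (hrow : ∀ x ∈ F, ‖∑ y, HM A v x y * f y‖ ≤ m)
    (hout : ∀ x ∈ F, ∀ y, y ∉ F → A x y ≠ 0 → ‖f y‖ ≤ M) :
    ∀ x ∈ F, ‖f x‖ ≤ Γ * (m + α * M) := by
  refine hE f (m + α * M) fun x hx => ?_
  rw [row_block f hx]
  refine (norm_sub_le _ _).trans (add_le_add (hrow x hx) ?_)
  exact row_le hα x _ f hM fun y hy h => hout x hx y (mem_compl.mp hy) h

/-- **case 1**: all frozen blocks (possibly one of them contains `s`) touch only `Λ`. -/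
theorem apri_frozen {A : Matrix ι ι ℝ} {v : ι → ℂ} {B Λ : Finset ι} {Γ0 α : ℝ} {β : Type*}
    (sg : Finset β) (Fb : β → Finset ι) (hα : ∀ x, ∑ y, |A x y| ≤ α) (hα1 : 1 ≤ α)
    (hΓ0 : 1 ≤ Γ0) (hE : ∀ b ∈ sg, EstB A v (Fb b) Γ0) (hFB : ∀ b ∈ sg, Fb b ⊆ B)
    (hcl : ∀ b ∈ sg, ∀ x ∈ Fb b, ∀ y, y ∉ Fb b → A x y ≠ 0 → y ∈ Λ)
    (hB : ∀ x ∈ B, x ∈ Λ ∨ ∃ b ∈ sg, x ∈ Fb b) : APri A v B Λ (Γ0 * α) := by
  intro f m l hm hl hrow hfl x hx
  rcases hB x hx with h | ⟨b, hb, hxb⟩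
  · have h1 : 1 ≤ Γ0 * α := by nlinarith
    nlinarith [hfl x h]
  · have h1 := block_le hα (hE b hb) hl (fun y hy => hrow y (hFB b hb hy))
      (fun y hy z hz hA => hfl z (hcl b hb y hy z hz hA)) x hxb
    refine h1.trans ?_
    have : Γ0 * m ≤ Γ0 * (α * m) := mul_le_mul_of_nonneg_left (by nlinarith) (by linarith)
    nlinarith

/-- **case 2**: `s` is a free site which the blocks may touch; `y₀` is a neighbour of `s` in `Λ`
whose other neighbours are in `Λ` or in blocks which do not touch `s`. -/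
theorem apri_free {A : Matrix ι ι ℝ} {v : ι → ℂ} {B Λ : Finset ι} {Γ0 α R0 : ℝ} {β : Type*}
    {s yo : ι} (sg : Finset β) (Fb : β → Finset ι) (hα : ∀ x, ∑ y, |A x y| ≤ α) (hα1 : 1 ≤ α)
    (hΓ0 : 1 ≤ Γ0) (hE : ∀ b ∈ sg, EstB A v (Fb b) Γ0) (hFB : ∀ b ∈ sg, Fb b ⊆ B)
    (hcl : ∀ b ∈ sg, ∀ x ∈ Fb b, ∀ y, y ∉ Fb b → A x y ≠ 0 → y ∈ Λ ∨ y = s)
    (hB : ∀ x ∈ B, x ∈ Λ ∨ x = s ∨ ∃ b ∈ sg, x ∈ Fb b)
    (hyo : yo ∈ Λ) (hyoB : yo ∈ B) (hys : 1 ≤ |A yo s|) (hR0 : ‖v yo‖ ≤ R0)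
    (hR1 : 0 ≤ R0)
    (hnb : ∀ y, y ≠ s → A yo y ≠ 0 → y ∈ Λ ∨ ∃ b ∈ sg, y ∈ Fb b ∧ ∀ x ∈ Fb b, A x s = 0) :
    APri A v B Λ (2 * (Γ0 * α) * (1 + R0 + Γ0 * α ^ 2)) := by
  intro f m l hm hl hrow hfl
  -- blocks which do not touch `s`
  have h1 : ∀ b ∈ sg, (∀ x ∈ Fb b, A x s = 0) → ∀ x ∈ Fb b, ‖f x‖ ≤ Γ0 * (m + α * l) := by
    intro b hb hbs
    refine block_le hα (hE b hb) hl (fun y hy => hrow y (hFB b hb hy)) fun y hy z hz hA => ?_
    rcases hcl b hb y hy z hz hA with h | h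
    · exact hfl z h
    · exact absurd (hbs y hy) (h ▸ hA)
  have hα0 : 0 ≤ α := by linarith
  set M1 := Γ0 * (m + α * l) with hM1
  have hM10 : 0 ≤ M1 := by positivity
  have hlM : l ≤ M1 := by
    rw [hM1]; nlinarith [mul_nonneg (show (0:ℝ) ≤ Γ0 by linarith) hm,
      mul_le_mul_of_nonneg_right hα1 hl, mul_nonneg hα0 hl]
  -- the value at `s`
  have h2 : ‖f s‖ ≤ m + R0 * l + α * M1 := by
    have e1 : (∑ y, HM A v yo y * f y) = (A yo s : ℂ) * f s + v yo * f yo +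
        ∑ y ∈ univ.erase s, (A yo y : ℂ) * f y := by
      have e2 : ∀ y, HM A v yo y * f y = (A yo y : ℂ) * f y + if yo = y then v yo * f yo else 0 := by
        intro y
        rw [HM_apply]
        by_cases h : yo = y
        · subst h; rw [if_pos rfl, if_pos rfl]; ring
        · rw [if_neg h, if_neg h]; ring
      simp_rw [e2]
      rw [sum_add_distrib, ← add_sum_erase univ (fun y => (A yo y : ℂ) * f y) (mem_univ s)]
      simp only [sum_ite_eq, mem_univ, if_true]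
      ring
    have e3 : (A yo s : ℂ) * f s = (∑ y, HM A v yo y * f y) - v yo * f yo -
        ∑ y ∈ univ.erase s, (A yo y : ℂ) * f y := by rw [e1]; ring
    have e4 : ‖f s‖ ≤ ‖(A yo s : ℂ) * f s‖ := by
      rw [norm_mul, Complex.norm_real, Real.norm_eq_abs]
      nlinarith [norm_nonneg (f s)]
    refine e4.trans ?_
    rw [e3]
    refine (norm_sub_le _ _).trans (add_le_add ((norm_sub_le _ _).trans
      (add_le_add (hrow yo hyoB) ?_)) ?_)
    · rw [norm_mul]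
      exact mul_le_mul hR0 (hfl yo hyo) (norm_nonneg _) hR1
    · refine row_le hα yo _ f hM10 fun y hy hAy => ?_
      rcases hnb y (mem_erase.mp hy).1 hAy with h | ⟨b, hb, hyb, hbs⟩
      · exact (hfl y h).trans hlM
      · exact h1 b hb hbs y hyb
  set M2 := m + R0 * l + α * M1 with hM2
  have hM1M2 : M1 ≤ M2 := by
    rw [hM2]; nlinarith [mul_nonneg hR1 hl]
  have hM20 : 0 ≤ M2 := hM10.trans hM1M2
  -- total constant
  have hM2le : M2 ≤ (1 + R0 + Γ0 * α ^ 2) * (m + l) := by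
    have e1 : α * M1 ≤ Γ0 * α ^ 2 * (m + l) := by
      rw [hM1]
      have : α * m ≤ α ^ 2 * m := mul_le_mul_of_nonneg_right (by nlinarith) hm
      nlinarith [mul_le_mul_of_nonneg_left this (show (0:ℝ) ≤ Γ0 by linarith)]
    have e2 : m + R0 * l ≤ (1 + R0) * (m + l) := by nlinarith [mul_nonneg hR1 hm]
    rw [hM2]; nlinarith
  intro x hx
  have hG1 : 1 ≤ Γ0 * α := by nlinarith
  have hbig : M2 ≤ 2 * (Γ0 * α) * M2 := by nlinarith
  have hfin : 2 * (Γ0 * α) * M2 ≤ 2 * (Γ0 * α) * (1 + R0 + Γ0 * α ^ 2) * (m + l) := by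
    rw [mul_assoc (2 * (Γ0 * α))]
    exact mul_le_mul_of_nonneg_left hM2le (by positivity)
  rcases hB x hx with h | h | ⟨b, hb, hxb⟩
  · exact (hfl x h).trans (hlM.trans (hM1M2.trans (hbig.trans hfin)))
  · rw [h]; exact h2.trans (hbig.trans hfin)
  · have h3 := block_le hα (hE b hb) hM20 (fun y hy => hrow y (hFB b hb hy))
      (fun y hy z hz hA => by
        rcases hcl b hb y hy z hz hA with h | h
        · exact (hfl z h).trans (hlM.trans hM1M2)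
        · rw [h]; exact h2) x hxb
    refine h3.trans (le_trans ?_ hfin)
    have hmM : m ≤ M2 := by
      rw [hM2]; nlinarith [mul_nonneg hR1 hl, mul_nonneg hα0 hM10]
    have h4 : m ≤ α * M2 := hmM.trans (by nlinarith)
    calc Γ0 * (m + α * M2) ≤ Γ0 * (α * M2 + α * M2) :=
          mul_le_mul_of_nonneg_left (by linarith) (by linarith)
      _ = 2 * (Γ0 * α) * M2 := by ring

/-- the family of the frozen blocks of the local theorem -/
structure Fam {β : Type*} (A : Matrix ι ι ℝ) (v : ι → ℂ) (Lam Fz : Finset ι) (s : ι) (us : ℂ)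
    (sg : Finset β) (Fb : β → Finset ι) (Γ0 α : ℝ) : Prop where
  row : ∀ x, ∑ y, |A x y| ≤ α
  one_α : 1 ≤ α
  one_Γ : 1 ≤ Γ0
  est : ∀ b ∈ sg, EstB A (Function.update v s us) (Fb b) Γ0
  sub : ∀ b ∈ sg, ∀ y ∈ Fb b, y ∈ insert s Fz
  cov : ∀ y ∈ Fz, ∃ b ∈ sg, y ∈ Fb b
  cl : ∀ b ∈ sg, ∀ x ∈ Fb b, ∀ y, y ∉ Fb b → A x y ≠ 0 → y ∈ Lam ∨ y = s

variable {β : Type*} {A : Matrix ι ι ℝ} {v : ι → ℂ} {Lam Fz : Finset ι} {s : ι} {us : ℂ}
  {sg : Finset β} {Fb : β → Finset ι} {Γ0 α R c a : ℝ}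

theorem loss_flat (hv : Loss v) (hus : us.im < 0) :
    Loss (Function.update (flat Lam v) s us) := by
  intro x
  by_cases h : x = s
  · subst h; rw [Function.update_self]; exact hus
  · rw [Function.update_of_ne h]
    unfold flat
    split_ifs
    · simp
    · exact hv x

theorem flat_eq (hS : Setup c a A v Lam Fz s R)
    (hF : Fam A v Lam Fz s us sg Fb Γ0 α) {b : β} (hb : b ∈ sg) {x : ι} (hx : x ∈ Fb b) :
    Function.update (flat Lam v) s us x = Function.update v s us x := by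
  by_cases h : x = s
  · subst h; rw [Function.update_self, Function.update_self]
  · rw [Function.update_of_ne h, Function.update_of_ne h]
    unfold flat
    rw [if_neg]
    intro hL
    rcases mem_insert.mp (hF.sub b hb x hx) with h' | h'
    · exact h h'
    · exact Finset.disjoint_left.mp hS.disj hL h'

theorem pot_eq (hS : Setup c a A v Lam Fz s R)
    (hF : Fam A v Lam Fz s us sg Fb Γ0 α) (V : ι → ℝ) {b : β} (hb : b ∈ sg) {x : ι}
    (hx : x ∈ Fb b) :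
    Function.update (pot Lam (fun _ => a) v V) s us x = Function.update v s us x := by
  by_cases h : x = s
  · subst h; rw [Function.update_self, Function.update_self]
  · rw [Function.update_of_ne h, Function.update_of_ne h]
    unfold pot
    rw [if_neg]
    intro hL
    rcases mem_insert.mp (hF.sub b hb x hx) with h' | h'
    · exact h h'
    · exact Finset.disjoint_left.mp hS.disj hL h'

theorem gam_flat_lam (hs : s ∉ Lam) {x : ι} (hx : x ∈ Lam) :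
    gam (Function.update (flat Lam v) s us) x = 1 := by
  have h : x ≠ s := fun h => hs (h ▸ hx)
  unfold gam
  rw [Function.update_of_ne h]
  unfold flat
  rw [if_pos hx]
  simp

theorem lam_sub : Lam ⊆ insert s (Lam ∪ Fz) := fun _ hx =>
  mem_insert_of_mem (mem_union_left _ hx)

theorem hypG_of_apri (hS : Setup c a A v Lam Fz s R) (hus : us.im < 0) {Γ1 Γ : ℝ} (hΓ1 : 1 ≤ Γ1)
    (hap : APri A (Function.update (flat Lam v) s us) (insert s (Lam ∪ Fz)) Lam Γ1)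
    (hΓ : 3 * Γ1 ^ 2 ≤ Γ) : HypG A v Lam Fz s Γ us := by
  intro y hy z hz
  have hsub : ∀ y ∈ insert s Fz, y ∈ insert s (Lam ∪ Fz) := by
    intro y hy
    rcases mem_insert.mp hy with h | h
    · exact h ▸ mem_insert_self _ _
    · exact mem_insert_of_mem (mem_union_right _ h)
  have h := G_core hS.symm (loss_flat hS.loss hus) lam_sub
    (fun x hx => (gam_flat_lam hS.s_lam hx).ge) one_pos hΓ1 hap y (hsub y hy) z (hsub z hz)
  refine h.trans (le_trans ?_ hΓ)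
  nlinarith

/-- (G), case 1: the blocks touch only `Lam`, and `s` is in one of them. -/
theorem hypG_frozen (hS : Setup c a A v Lam Fz s R) (hF : Fam A v Lam Fz s us sg Fb Γ0 α)
    (hus : us.im < 0) (hsb : ∃ b ∈ sg, s ∈ Fb b)
    (hcl : ∀ b ∈ sg, ∀ x ∈ Fb b, ∀ y, y ∉ Fb b → A x y ≠ 0 → y ∈ Lam)
    {Γ : ℝ} (hΓ : 3 * (Γ0 * α) ^ 2 ≤ Γ) : HypG A v Lam Fz s Γ us := by
  have h1 := hF.one_α
  have h2 := hF.one_Γ
  refine hypG_of_apri hS hus (by nlinarith) ?_ hΓ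
  refine apri_frozen sg Fb hF.row hF.one_α hF.one_Γ
      (fun b hb => (hF.est b hb).congr fun x hx => flat_eq hS hF hb hx)
      (fun b hb y hy => ?_) hcl (fun x hx => ?_)
  · rcases mem_insert.mp (hF.sub b hb y hy) with h | h
    · exact h ▸ mem_insert_self _ _
    · exact mem_insert_of_mem (mem_union_right _ h)
  · rcases mem_insert.mp hx with h | h
    · obtain ⟨b, hb, hsb⟩ := hsb
      exact Or.inr ⟨b, hb, h ▸ hsb⟩
    · rcases mem_union.mp h with h | h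
      · exact Or.inl h
      · exact Or.inr (hF.cov x h)

/-- (G), case 2: `s` is a free site with a neighbour `yo` in `Lam` whose other neighbours are in
`Lam` or in blocks which do not touch `s`. -/
theorem hypG_free (hS : Setup c a A v Lam Fz s R) (hF : Fam A v Lam Fz s us sg Fb Γ0 α)
    (hus : us.im < 0) {yo : ι} (hyo : yo ∈ Lam) (hys : 1 ≤ |A yo s|)
    (hnb : ∀ y, y ≠ s → A yo y ≠ 0 → y ∈ Lam ∨ ∃ b ∈ sg, y ∈ Fb b ∧ ∀ x ∈ Fb b, A x s = 0)
    {Γ : ℝ} (hΓ : 108 * (Γ0 ^ 4 * α ^ 6) ≤ Γ) : HypG A v Lam Fz s Γ us := by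
  have h1 := hF.one_α
  have h2 := hF.one_Γ
  have h3 : 1 ≤ Γ0 * α ^ 2 := by
    have : 1 ≤ α ^ 2 := by nlinarith
    nlinarith
  have hne : yo ≠ s := fun h => hS.s_lam (h ▸ hyo)
  have hvyo : Function.update (flat Lam v) s us yo = -Complex.I := by
    rw [Function.update_of_ne hne]
    unfold flat
    rw [if_pos hyo]
  refine hypG_of_apri hS hus (Γ1 := 2 * (Γ0 * α) * (1 + 1 + Γ0 * α ^ 2)) (by nlinarith) ?_
    (le_trans ?_ hΓ)
  · refine apri_free (yo := yo) sg Fb hF.row hF.one_α hF.one_Γ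
      (fun b hb => (hF.est b hb).congr fun x hx => flat_eq hS hF hb hx)
      (fun b hb y hy => ?_) hF.cl (fun x hx => ?_) hyo (lam_sub hyo) hys
      (by rw [hvyo]; simp) zero_le_one hnb
    · rcases mem_insert.mp (hF.sub b hb y hy) with h | h
      · exact h ▸ mem_insert_self _ _
      · exact mem_insert_of_mem (mem_union_right _ h)
    · rcases mem_insert.mp hx with h | h
      · exact Or.inr (Or.inl h)
      · rcases mem_union.mp h with h | h
        · exact Or.inl h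
        · exact Or.inr (Or.inr (hF.cov x h))
  · have h4 : 2 * (Γ0 * α) * (1 + 1 + Γ0 * α ^ 2) ≤ 6 * (Γ0 ^ 2 * α ^ 3) := by
      have : 2 * (Γ0 * α) * (1 + 1 + Γ0 * α ^ 2) ≤ 2 * (Γ0 * α) * (3 * (Γ0 * α ^ 2)) := by
        apply mul_le_mul_of_nonneg_left _ (by positivity); linarith
      calc _ ≤ _ := this
        _ = _ := by ring
    have h5 : 0 ≤ 2 * (Γ0 * α) * (1 + 1 + Γ0 * α ^ 2) := by positivity
    calc 3 * (2 * (Γ0 * α) * (1 + 1 + Γ0 * α ^ 2)) ^ 2 ≤ 3 * (6 * (Γ0 ^ 2 * α ^ 3)) ^ 2 := by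
          apply mul_le_mul_of_nonneg_left _ (by norm_num)
          exact pow_le_pow_left₀ h5 h4 2
      _ = 108 * (Γ0 ^ 4 * α ^ 6) := by ring

/-- **(F)**: the source `x` is outside the blocks. -/
theorem hypF_of {x : ι} (hS : Setup c a A v Lam Fz s R) (hF : Fam A v Lam Fz s us sg Fb Γ0 α)
    (hus : us.im < 0) (hx : ∀ b ∈ sg, x ∉ Fb b) {Γ : ℝ}
    (hΓ : (Fz.card : ℝ) * (Γ0 * α) ^ 2 ≤ Γ ^ 2)
    (hcl : ∀ b ∈ sg, ∀ x ∈ Fb b, ∀ y, y ∉ Fb b → A x y ≠ 0 → y ∈ Lam ∨ y = s) :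
    HypF c a A v Lam Fz s x Γ us := by
  intro V _
  set u := Function.update (pot Lam (fun _ => a) v V) s us with hu
  have hL : Loss u := by
    intro y
    by_cases h : y = s
    · subst h; rw [hu, Function.update_self]; exact hus
    · rw [hu, Function.update_of_ne h]
      unfold pot
      split_ifs
      · simp; exact hS.a_pos
      · exact hS.loss y
  set S := ∑ y ∈ insert s Lam, ‖GM A u y x‖ ^ 2 with hSd
  have hS0 : 0 ≤ S := sum_nonneg fun _ _ => by positivity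
  have hM : ∀ y, y ∈ Lam ∨ y = s → ‖GM A u y x‖ ≤ Real.sqrt S := by
    intro y hy
    apply Real.le_sqrt_of_sq_le
    refine Finset.single_le_sum (f := fun y => ‖GM A u y x‖ ^ 2) (fun _ _ => by positivity)
      (mem_insert.mpr (hy.symm))
  have hpt : ∀ y ∈ Fz, ‖GM A u y x‖ ^ 2 ≤ (Γ0 * α) ^ 2 * S := by
    intro y hy
    obtain ⟨b, hb, hyb⟩ := hF.cov y hy
    have hEu : EstB A u (Fb b) Γ0 := (hF.est b hb).congr fun z hz => pot_eq hS hF V hb hz
    have hrow : ∀ z ∈ Fb b, ‖∑ y, HM A u z y * GM A u y x‖ ≤ 0 := by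
      intro z hz
      have h1 := congrFun (congrFun (HM_mul_GM hS.symm hL) z) x
      have hzx : z ≠ x := fun h => hx b hb (h ▸ hz)
      rw [Matrix.mul_apply, Matrix.one_apply, if_neg hzx] at h1
      rw [h1, norm_zero]
    have h1 := block_le hF.row hEu (f := fun y => GM A u y x) (m := 0) (Real.sqrt_nonneg S) hrow
      (fun z hz y hy hA => hM y (hcl b hb z hz y hy hA)) y hyb
    have h2 : ‖GM A u y x‖ ≤ Γ0 * α * Real.sqrt S := by
      calc _ ≤ _ := h1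
        _ = _ := by ring
    calc ‖GM A u y x‖ ^ 2 ≤ (Γ0 * α * Real.sqrt S) ^ 2 := pow_le_pow_left₀ (norm_nonneg _) h2 2
      _ = (Γ0 * α) ^ 2 * S := by rw [mul_pow, Real.sq_sqrt hS0]
  calc ∑ y ∈ Fz, ‖GM A u y x‖ ^ 2 ≤ ∑ _y ∈ Fz, (Γ0 * α) ^ 2 * S := sum_le_sum hpt
    _ = (Fz.card : ℝ) * (Γ0 * α) ^ 2 * S := by rw [sum_const, nsmul_eq_mul]; ring
    _ ≤ Γ ^ 2 * S := mul_le_mul_of_nonneg_right hΓ hS0

end Pool.Agent.Lib.MP_562b47_mp.LG
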